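import Pool.Agent.Helper178.IdxUp

set_option autoImplicit false
set_option linter.unusedVariables false

namespace Pool.Agent.R575.QR

open Pool.Agent.Helper178.Idx (Ch Ch_add Ch_short Run Run_append Run_short Run_block
  Run_block_long Run_pair_short)

/-- The alphabet: two kinds of opening and closing letters and four letters for unary blocks. -/
inductive Lt
  | op (f : Bool)
  | cl (f : Bool)
  | c
  | d
  | e
  | g
  deriving DecidableEq, Fintype

/-- A block. -/
abbrev rp {X : Type} (n : ℕ) (a : X) : List X := List.replicate n a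

/-- A node with flag `f`, label `l`, information number `k`, inner part `u`, right part `v`. -/
abbrev nd (f : Bool) (l k : ℕ) (u v : List Lt) : List Lt :=
  Lt.op f :: (rp l Lt.c ++ (rp k Lt.d ++ (u ++ (Lt.cl f :: (rp k Lt.g ++ (rp l Lt.e ++ v))))))

/-- Binary trees, coded as words. -/
inductive E : List Lt → Prop
  | nil : E []
  | node (f : Bool) (l k : ℕ) (u v : List Lt) : E u → E v → E (nd f (l + 1) (k + 1) u v)

/-- Factor for inner children. -/
def ki : Bool → ℕ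
  | false => 1
  | true => 2

/-- Factor for right children. -/
def kr : Bool → ℕ
  | false => 2
  | true => 1

/-- The core of an inner violation. -/
abbrev vi (f f' : Bool) (l k m : ℕ) (β : List Lt) : List Lt :=
  Lt.op f :: (rp l Lt.c ++ (rp k Lt.d ++ (Lt.op f' :: (rp m Lt.c ++ β))))

/-- The core of a right violation. -/
abbrev vr (f f' : Bool) (l k m : ℕ) (β : List Lt) : List Lt :=
  Lt.cl f :: (rp k Lt.g ++ (rp l Lt.e ++ (Lt.op f' :: (rp m Lt.c ++ β))))

/-- The violations. -/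
def V (w : List Lt) : Prop :=
  ∃ (α : List Lt) (f f' : Bool) (l k m : ℕ) (β : List Lt),
    (w = α ++ vi f f' l k m β ∧ l < ki f * m) ∨ (w = α ++ vr f f' l k m β ∧ l < kr f * m)

theorem V.right {w : List Lt} (h : V w) (β' : List Lt) : V (w ++ β') := by
  obtain ⟨α, f, f', l, k, m, β, ⟨rfl, h⟩ | ⟨rfl, h⟩⟩ := h
  · exact ⟨α, f, f', l, k, m, β ++ β', Or.inl ⟨by simp [vi], h⟩⟩
  · exact ⟨α, f, f', l, k, m, β ++ β', Or.inr ⟨by simp [vr], h⟩⟩

theorem V.left {w : List Lt} (h : V w) (α' : List Lt) : V (α' ++ w) := by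
  obtain ⟨α, f, f', l, k, m, β, ⟨rfl, h⟩ | ⟨rfl, h⟩⟩ := h
  · exact ⟨α' ++ α, f, f', l, k, m, β, Or.inl ⟨by simp, h⟩⟩
  · exact ⟨α' ++ α, f, f', l, k, m, β, Or.inr ⟨by simp, h⟩⟩

/-- The language. -/
def L : Language Lt := {w | E w ∨ V w}

/-! ### runs over nodes -/

variable {σ : Type} {st : σ → Lt → σ → Prop}

theorem run_cons {X : Type} {st : σ → X → σ → Prop} {a : X} {w : List X} {p q : σ} :
    Run st p (a :: w) q ↔ ∃ r, st p a r ∧ Run st r w q := Iff.rfl

/-! ### short violations -/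

theorem ki_pos (f : Bool) : 1 ≤ ki f := by cases f <;> simp [ki]

theorem kr_pos (f : Bool) : 1 ≤ kr f := by cases f <;> simp [kr]

theorem V_short [Fintype σ] {w : List Lt} {p q : σ}
    (hw : V w) (h : Run st p w q) :
    ∃ w', V w' ∧ Run st p w' q ∧ w'.length ≤ 6 * Fintype.card σ + 2 := by
  set N := Fintype.card σ with hN
  have hN1 : 1 ≤ N := Fintype.card_pos_iff.mpr ⟨p⟩
  -- shortening of the final part
  have tail : ∀ (κ l m : ℕ) (β : List Lt) (f' : Bool) (s : σ), 1 ≤ κ → l < κ * m →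
      Run st s (Lt.op f' :: (rp m Lt.c ++ β)) q →
      ∀ l', l' ≤ l → l' < N → ∃ m' β', l' < κ * m' ∧
        Run st s (Lt.op f' :: (rp m' Lt.c ++ β')) q ∧
        (Lt.op f' :: (rp m' Lt.c ++ β')).length ≤ 3 * N := by
    intro κ l m β f' s hκ hlm hs l' hl' hl'N
    obtain ⟨s1, g1, g2⟩ := hs
    obtain ⟨s2, g3, g4⟩ := (Run_append _ _ _ _).mp g2
    obtain ⟨β', hβ, g5⟩ := Run_short g4
    by_cases hm : m ≤ N
    · refine ⟨m, β', by omega, ⟨s1, g1, (Run_append _ _ _ _).mpr ⟨s2, g3, g5⟩⟩, ?_⟩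
      simp only [rp, List.length_cons, List.length_append, List.length_replicate]
      omega
    · obtain ⟨m', k1, k2, _, k3⟩ := Run_block g3 N (by omega)
      refine ⟨m', β', ?_, ⟨s1, g1, (Run_append _ _ _ _).mpr ⟨s2, k3, g5⟩⟩, ?_⟩
      · calc l' < N := hl'N
          _ ≤ m' := k1
          _ ≤ κ * m' := Nat.le_mul_of_pos_left _ hκ
      · simp only [rp, List.length_cons, List.length_append, List.length_replicate]
        omega
  obtain ⟨α, f, f', l, k, m, β, ⟨rfl, hv⟩ | ⟨rfl, hv⟩⟩ := hw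
  · obtain ⟨s0, h1, h2⟩ := (Run_append _ _ _ _).mp h
    obtain ⟨α', hα, h3⟩ := Run_short h1
    obtain ⟨s1, h4, h5⟩ := h2
    obtain ⟨s2, h6, h7⟩ := (Run_append _ _ _ _).mp h5
    obtain ⟨s3, h8, h9⟩ := (Run_append _ _ _ _).mp h7
    obtain ⟨l', l1, l2, l3, l4⟩ := Run_block h6 0 (Nat.zero_le _)
    obtain ⟨k', k1, k2, k3, k4⟩ := Run_block h8 0 (Nat.zero_le _)
    obtain ⟨m', β', m1, m2, m3⟩ := tail _ _ _ _ _ _ (ki_pos f) hv h9 l' l3 (by omega)
    refine ⟨α' ++ vi f f' l' k' m' β', ⟨α', f, f', l', k', m', β', Or.inl ⟨rfl, m1⟩⟩, ?_, ?_⟩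
    · exact (Run_append _ _ _ _).mpr ⟨s0, h3, s1, h4, (Run_append _ _ _ _).mpr ⟨s2, l4,
        (Run_append _ _ _ _).mpr ⟨s3, k4, m2⟩⟩⟩
    · simp only [rp, List.length_cons, List.length_append, List.length_replicate] at m3 ⊢
      omega
  · obtain ⟨s0, h1, h2⟩ := (Run_append _ _ _ _).mp h
    obtain ⟨α', hα, h3⟩ := Run_short h1
    obtain ⟨s1, h4, h5⟩ := h2
    obtain ⟨s2, h6, h7⟩ := (Run_append _ _ _ _).mp h5
    obtain ⟨s3, h8, h9⟩ := (Run_append _ _ _ _).mp h7
    obtain ⟨k', k1, k2, k3, k4⟩ := Run_block h6 0 (Nat.zero_le _)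
    obtain ⟨l', l1, l2, l3, l4⟩ := Run_block h8 0 (Nat.zero_le _)
    obtain ⟨m', β', m1, m2, m3⟩ := tail _ _ _ _ _ _ (kr_pos f) hv h9 l' l3 (by omega)
    refine ⟨α' ++ vr f f' l' k' m' β', ⟨α', f, f', l', k', m', β', Or.inr ⟨rfl, m1⟩⟩, ?_, ?_⟩
    · exact (Run_append _ _ _ _).mpr ⟨s0, h3, s1, h4, (Run_append _ _ _ _).mpr ⟨s2, k4,
        (Run_append _ _ _ _).mpr ⟨s3, l4, m2⟩⟩⟩
    · simp only [rp, List.length_cons, List.length_append, List.length_replicate] at m3 ⊢
      omega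

/-! ### trees of bounded rank -/

/-- Trees of rank at most `h`. -/
inductive Es : ℕ → List Lt → Prop
  | nil (h : ℕ) : Es h []
  | inner (h l k : ℕ) (u v : List Lt) : Es (h + 1) u → Es h v →
      Es (h + 1) (nd false (l + 1) (k + 1) u v)
  | right (h l k : ℕ) (u v : List Lt) : Es h u → Es (h + 1) v →
      Es (h + 1) (nd true (l + 1) (k + 1) u v)

theorem Es.toE {h : ℕ} {w : List Lt} (hw : Es h w) : E w := by
  induction hw with
  | nil h => exact .nil
  | inner h l k u v _ _ ih1 ih2 => exact .node _ _ _ _ _ ih1 ih2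
  | right h l k u v _ _ ih1 ih2 => exact .node _ _ _ _ _ ih1 ih2

/-- The bound on the lengths of short trees of rank `h`. -/
def Bd (N : ℕ) : ℕ → ℕ
  | 0 => 0
  | h + 1 => N ^ 2 * (4 * N ^ 2 + 2 + Bd N h)

/-- One step of the spine. -/
def Ec (st : σ → Lt → σ → Prop) (h M B : ℕ) (s t : σ × σ) : Prop :=
  (∃ l k v, Es h v ∧ Run st s.1 (Lt.op false :: (rp (l + 1) Lt.c ++ rp (k + 1) Lt.d)) t.1 ∧
    Run st t.2 (Lt.cl false :: (rp (k + 1) Lt.g ++ (rp (l + 1) Lt.e ++ v))) s.2 ∧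
    l < M ∧ k < M ∧ v.length ≤ B) ∨
  (∃ l k u, Es h u ∧ t.2 = s.2 ∧ Run st s.1 (Lt.op true :: (rp (l + 1) Lt.c ++ (rp (k + 1) Lt.d ++
    (u ++ (Lt.cl true :: (rp (k + 1) Lt.g ++ rp (l + 1) Lt.e)))))) t.1 ∧
    l < M ∧ k < M ∧ u.length ≤ B)

theorem Es_short [Fintype σ] (h : ℕ) :
    ∀ (w : List Lt) (p q : σ), Es h w → Run st p w q →
      ∃ w', Es h w' ∧ Run st p w' q ∧ w'.length ≤ Bd (Fintype.card σ) h := by
  set N := Fintype.card σ with hN
  induction h with
  | zero =>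
    intro w p q hw hr
    cases hw with
    | nil => exact ⟨[], .nil _, hr, by simp⟩
  | succ h ih =>
    have toChain : ∀ (k : ℕ) (w : List Lt), Es k w → k = h + 1 → ∀ p q, Run st p w q →
        ∃ m r, Ch (Ec st h (N ^ 2) (Bd N h)) m (p, q) (r, r) := by
      intro k w hw
      induction hw with
      | nil =>
        intro _ p q hr
        have hr' : p = q := hr
        exact ⟨0, p, by rw [hr']; rfl⟩
      | inner k0 l k u v hu hv ihu ihv =>
        intro hk p q hr
        have hk' : k0 = h := by omega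
        subst hk'
        obtain ⟨s1, g1, hr⟩ := hr
        obtain ⟨s2, g2, hr⟩ := (Run_append _ _ _ _).mp hr
        obtain ⟨s3, g3, hr⟩ := (Run_append _ _ _ _).mp hr
        obtain ⟨s4, g4, hr⟩ := (Run_append _ _ _ _).mp hr
        obtain ⟨s5, g5, hr⟩ := hr
        obtain ⟨s6, g6, hr⟩ := (Run_append _ _ _ _).mp hr
        obtain ⟨s7, g7, g8⟩ := (Run_append _ _ _ _).mp hr
        obtain ⟨m, r, hm⟩ := ihu rfl s3 s4 g4
        obtain ⟨l', hl', g2', g7'⟩ := Run_pair_short g2 g7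
        obtain ⟨k', hk', g3', g6'⟩ := Run_pair_short g3 g6
        obtain ⟨v', hv', g8', hlv⟩ := ih v s7 q hv g8
        refine ⟨m + 1, r, (s3, s4), Or.inl ⟨l', k', v', hv', ?_, ?_, hl', hk', hlv⟩, hm⟩
        · exact ⟨s1, g1, (Run_append _ _ _ _).mpr ⟨s2, g2', g3'⟩⟩
        · exact ⟨s5, g5, (Run_append _ _ _ _).mpr ⟨s6, g6', (Run_append _ _ _ _).mpr
            ⟨s7, g7', g8'⟩⟩⟩
      | right k0 l k u v hu hv ihu ihv =>
        intro hk p q hr
        have hk' : k0 = h := by omega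
        subst hk'
        obtain ⟨s1, g1, hr⟩ := hr
        obtain ⟨s2, g2, hr⟩ := (Run_append _ _ _ _).mp hr
        obtain ⟨s3, g3, hr⟩ := (Run_append _ _ _ _).mp hr
        obtain ⟨s4, g4, hr⟩ := (Run_append _ _ _ _).mp hr
        obtain ⟨s5, g5, hr⟩ := hr
        obtain ⟨s6, g6, hr⟩ := (Run_append _ _ _ _).mp hr
        obtain ⟨s7, g7, g8⟩ := (Run_append _ _ _ _).mp hr
        obtain ⟨m, r, hm⟩ := ihv rfl s7 q g8
        obtain ⟨l', hl', g2', g7'⟩ := Run_pair_short g2 g7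
        obtain ⟨k', hk', g3', g6'⟩ := Run_pair_short g3 g6
        obtain ⟨u', hu', g4', hlu⟩ := ih u s3 s4 hu g4
        refine ⟨m + 1, r, (s7, q), Or.inr ⟨l', k', u', hu', rfl, ?_, hl', hk', hlu⟩, hm⟩
        exact ⟨s1, g1, (Run_append _ _ _ _).mpr ⟨s2, g2', (Run_append _ _ _ _).mpr ⟨s3, g3',
          (Run_append _ _ _ _).mpr ⟨s4, g4', s5, g5, (Run_append _ _ _ _).mpr ⟨s6, g6', g7'⟩⟩⟩⟩⟩
    have ofChain : ∀ (m : ℕ) (s : σ × σ) (r : σ), Ch (Ec st h (N ^ 2) (Bd N h)) m s (r, r) →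
        ∃ w', Es (h + 1) w' ∧ Run st s.1 w' s.2 ∧ w'.length ≤ m * (4 * N ^ 2 + 2 + Bd N h) := by
      intro m
      induction m with
      | zero =>
        intro s r hm
        have hm' : s = (r, r) := hm
        exact ⟨[], .nil _, by rw [hm']; rfl, by simp⟩
      | succ m ihm =>
        rintro s r ⟨t, ht, hm⟩
        obtain ⟨w, hw, hrw, hlw⟩ := ihm t r hm
        rcases ht with ⟨l, k, v, hv, g1, g2, hl, hk, hlv⟩ | ⟨l, k, u, hu, hts, g1, hl, hk, hlu⟩
        · refine ⟨_, .inner h l k w v hw hv, ?_, ?_⟩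
          · have h3 := (Run_append (st := st) _ _ s.1 s.2).mpr ⟨t.1, g1,
              (Run_append (st := st) _ _ _ _).mpr ⟨t.2, hrw, g2⟩⟩
            simpa only [nd, List.append_assoc, List.cons_append] using h3
          · simp only [rp, List.length_append, List.length_replicate, List.length_cons]
            calc _ ≤ (4 * N ^ 2 + 2 + Bd N h) + w.length := by omega
              _ ≤ (4 * N ^ 2 + 2 + Bd N h) + m * (4 * N ^ 2 + 2 + Bd N h) :=
                Nat.add_le_add_left hlw _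
              _ = _ := by ring
        · refine ⟨_, .right h l k u w hu hw, ?_, ?_⟩
          · rw [hts] at hrw
            have h3 := (Run_append (st := st) _ _ s.1 s.2).mpr ⟨t.1, g1, hrw⟩
            simpa only [nd, List.append_assoc, List.cons_append] using h3
          · simp only [rp, List.length_append, List.length_replicate, List.length_cons]
            calc _ ≤ (4 * N ^ 2 + 2 + Bd N h) + w.length := by omega
              _ ≤ (4 * N ^ 2 + 2 + Bd N h) + m * (4 * N ^ 2 + 2 + Bd N h) :=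
                Nat.add_le_add_left hlw _
              _ = _ := by ring
    intro w p q hw hr
    obtain ⟨m, r, hm⟩ := toChain (h + 1) w hw rfl p q hr
    obtain ⟨m', h1, _, h2⟩ := Ch_short _ hm
    obtain ⟨w', h3, h4, h5⟩ := ofChain m' _ r h2
    refine ⟨w', h3, h4, h5.trans ?_⟩
    rw [Fintype.card_prod, ← pow_two, ← hN] at h1
    exact Nat.mul_le_mul h1.le (le_refl _)

/-! ### the rank is bounded when there is no violation -/

theorem E_cases {w : List Lt} (hw : E w) : w = [] ∨ ∃ f m β, w = Lt.op f :: (rp (m + 1) Lt.c ++ β) := by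
  cases hw with
  | nil => exact Or.inl rfl
  | node f l k u v hu hv => exact Or.inr ⟨f, l, _, rfl⟩

theorem not_V_inner {f : Bool} {l k : ℕ} {u v : List Lt} (h : ¬ V (nd f l k u v)) : ¬ V u := by
  intro hu
  apply h
  have h1 := (hu.right (Lt.cl f :: (rp k Lt.g ++ (rp l Lt.e ++ v)))).left
    (Lt.op f :: (rp l Lt.c ++ rp k Lt.d))
  simpa only [nd, List.append_assoc, List.cons_append] using h1

theorem not_V_right {f : Bool} {l k : ℕ} {u v : List Lt} (h : ¬ V (nd f l k u v)) : ¬ V v := by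
  intro hv
  apply h
  have h1 := hv.left (Lt.op f :: (rp l Lt.c ++ (rp k Lt.d ++ (u ++ (Lt.cl f :: (rp k Lt.g ++
    rp l Lt.e))))))
  simpa only [nd, List.append_assoc, List.cons_append] using h1

theorem inner_le {f f' : Bool} {l k m : ℕ} {β v : List Lt}
    (h : ¬ V (nd f l k (Lt.op f' :: (rp m Lt.c ++ β)) v)) : ki f * m ≤ l := by
  by_contra hlt
  apply h
  refine ⟨[], f, f', l, k, m, β ++ Lt.cl f :: (rp k Lt.g ++ (rp l Lt.e ++ v)), Or.inl ⟨?_, by omega⟩⟩
  simp [nd, vi]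

theorem right_le {f f' : Bool} {l k m : ℕ} {β u : List Lt}
    (h : ¬ V (nd f l k u (Lt.op f' :: (rp m Lt.c ++ β)))) : kr f * m ≤ l := by
  by_contra hlt
  apply h
  refine ⟨Lt.op f :: (rp l Lt.c ++ (rp k Lt.d ++ u)), f, f', l, k, m, β, Or.inr ⟨?_, by omega⟩⟩
  simp [nd, vr]

theorem E_rank {w : List Lt} (hw : E w) : ∀ h : ℕ, ¬ V w →
    (∀ f m β, w = Lt.op f :: (rp m Lt.c ++ β) → m < 2 ^ h) → Es h w := by
  induction hw with
  | nil => intro h _ _; exact .nil h
  | node f l k u v hu hv ihu ihv =>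
    intro h hV hlt
    have h1 : l + 1 < 2 ^ h := hlt f (l + 1) _ rfl
    obtain ⟨h', rfl⟩ : ∃ h', h = h' + 1 := by
      cases h with
      | zero => simp at h1
      | succ h' => exact ⟨h', rfl⟩
    rw [pow_succ] at h1
    cases f with
    | false =>
      refine .inner h' l k u v (ihu (h' + 1) (not_V_inner hV) ?_) (ihv h' (not_V_right hV) ?_)
      · rintro f m β rfl
        have := inner_le hV
        simp only [ki] at this
        rw [pow_succ]
        omega
      · rintro f m β rfl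
        have := right_le hV
        simp only [kr] at this
        omega
    | true =>
      refine .right h' l k u v (ihu h' (not_V_inner hV) ?_) (ihv (h' + 1) (not_V_right hV) ?_)
      · rintro f m β rfl
        have := inner_le hV
        simp only [ki] at this
        omega
      · rintro f m β rfl
        have := right_le hV
        simp only [kr] at this
        rw [pow_succ]
        omega

/-- The upper bound. -/
def UB (N : ℕ) : ℕ := 6 * N + 2 + Bd N (Nat.log 2 N + 2)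

theorem upper [Fintype σ] (S A : σ → Prop) {w : List Lt} (hw : w ∈ L) {p q : σ} (hp : S p)
    (hq : A q) (hr : Run st p w q) :
    ∃ w' ∈ L, ∃ p' q', S p' ∧ A q' ∧ Run st p' w' q' ∧ w'.length ≤ UB (Fintype.card σ) := by
  by_cases hV : ∃ w p q, V w ∧ S p ∧ A q ∧ Run st p w q
  · obtain ⟨w, p, q, hwV, hp, hq, hrun⟩ := hV
    obtain ⟨w', h1, h2, h3⟩ := V_short hwV hrun
    refine ⟨w', Or.inr h1, p, q, hp, hq, h2, ?_⟩
    unfold UB
    omega
  · push Not at hV
    have hE : E w := by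
      rcases hw with h | h
      · exact h
      · exact absurd hr (hV w p q h hp hq)
    have hVw : ¬ V w := fun h => hV w p q h hp hq hr
    have hlog : Fintype.card σ < 2 ^ (Nat.log 2 (Fintype.card σ) + 1) :=
      Nat.lt_pow_succ_log_self (by norm_num) _
    set H := Nat.log 2 (Fintype.card σ) + 1 with hH
    have hh : Es (H + 1) w := by
      cases hE with
      | nil => exact .nil _
      | node f l k u v hu hv =>
        have hr0 := hr
        obtain ⟨s1, g1, hr⟩ := hr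
        obtain ⟨s2, g2, hr⟩ := (Run_append _ _ _ _).mp hr
        obtain ⟨s3, g3, hr⟩ := (Run_append _ _ _ _).mp hr
        obtain ⟨s4, g4, hr⟩ := (Run_append _ _ _ _).mp hr
        obtain ⟨s5, g5, hr⟩ := hr
        obtain ⟨s6, g6, hr⟩ := (Run_append _ _ _ _).mp hr
        obtain ⟨s7, g7, g8⟩ := (Run_append _ _ _ _).mp hr
        have hu1 : ∀ f' m β, u = Lt.op f' :: (rp m Lt.c ++ β) → m < 2 ^ H := by
          rintro f' m β rfl
          by_contra hlt
          obtain ⟨t1, a1, a2⟩ := g4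
          obtain ⟨t2, a3, a4⟩ := (Run_append _ _ _ _).mp a2
          obtain ⟨m', hm', a5⟩ := Run_block_long a3 (by omega) (l + 2)
          refine hV (nd f (l + 1) (k + 1) (Lt.op f' :: (rp m' Lt.c ++ β)) v) p q ?_ hp hq ?_
          · by_contra hn
            have h1 := inner_le hn
            have h2 := ki_pos f
            have h3 : 1 * m' ≤ ki f * m' := Nat.mul_le_mul_right _ h2
            omega
          · exact ⟨s1, g1, (Run_append _ _ _ _).mpr ⟨s2, g2, (Run_append _ _ _ _).mpr ⟨s3, g3,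
              (Run_append _ _ _ _).mpr ⟨s4, ⟨t1, a1, (Run_append _ _ _ _).mpr ⟨t2, a5, a4⟩⟩, s5, g5,
              (Run_append _ _ _ _).mpr ⟨s6, g6, (Run_append _ _ _ _).mpr ⟨s7, g7, g8⟩⟩⟩⟩⟩⟩
        have hv1 : ∀ f' m β, v = Lt.op f' :: (rp m Lt.c ++ β) → m < 2 ^ H := by
          rintro f' m β rfl
          by_contra hlt
          obtain ⟨t1, a1, a2⟩ := g8
          obtain ⟨t2, a3, a4⟩ := (Run_append _ _ _ _).mp a2
          obtain ⟨m', hm', a5⟩ := Run_block_long a3 (by omega) (l + 2)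
          refine hV (nd f (l + 1) (k + 1) u (Lt.op f' :: (rp m' Lt.c ++ β))) p q ?_ hp hq ?_
          · by_contra hn
            have h1 := right_le hn
            have h2 := kr_pos f
            have h3 : 1 * m' ≤ kr f * m' := Nat.mul_le_mul_right _ h2
            omega
          · exact ⟨s1, g1, (Run_append _ _ _ _).mpr ⟨s2, g2, (Run_append _ _ _ _).mpr ⟨s3, g3,
              (Run_append _ _ _ _).mpr ⟨s4, g4, s5, g5,
              (Run_append _ _ _ _).mpr ⟨s6, g6, (Run_append _ _ _ _).mpr ⟨s7, g7, t1, a1,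
              (Run_append _ _ _ _).mpr ⟨t2, a5, a4⟩⟩⟩⟩⟩⟩⟩
        have hpw : 2 ^ H ≤ 2 ^ (H + 1) := Nat.pow_le_pow_right (by norm_num) (Nat.le_succ _)
        cases f with
        | false =>
          exact .inner H l k u v (E_rank hu (H + 1) (not_V_inner hVw)
            fun f' m β he => lt_of_lt_of_le (hu1 f' m β he) hpw) (E_rank hv H (not_V_right hVw) hv1)
        | true =>
          exact .right H l k u v (E_rank hu H (not_V_inner hVw) hu1) (E_rank hv (H + 1)
            (not_V_right hVw) fun f' m β he => lt_of_lt_of_le (hv1 f' m β he) hpw)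
    obtain ⟨w', h1, h2, h3⟩ := Es_short _ w p q hh hr
    refine ⟨w', Or.inl h1.toE, p, q, hp, hq, h2, ?_⟩
    unfold UB
    rw [show Nat.log 2 (Fintype.card σ) + 2 = H + 1 by omega]
    omega

/-! ### growth -/

theorem Bd_le {N a : ℕ} (hN : 1 ≤ N) (hNa : N ≤ 2 ^ a) (h : ℕ) : Bd N h ≤ 2 ^ ((4 * a + 3) * h) := by
  induction h with
  | zero => simp [Bd]
  | succ h ih =>
    have h1 : N ^ 2 * (4 * N ^ 2 + 2 + 1) ≤ 2 ^ (4 * a + 3) := by
      have h2 : N ^ 2 * (4 * N ^ 2 + 2 + 1) ≤ 8 * (N ^ 4) := by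
        have : 1 ≤ N ^ 2 := Nat.one_le_pow _ _ hN
        nlinarith
      calc _ ≤ 8 * N ^ 4 := h2
        _ ≤ 8 * (2 ^ a) ^ 4 := Nat.mul_le_mul_left _ (Nat.pow_le_pow_left hNa 4)
        _ = _ := by rw [← pow_mul, show (8 : ℕ) = 2 ^ 3 by norm_num, ← pow_add]; congr 1; ring
    have h3 : 1 ≤ 2 ^ ((4 * a + 3) * h) := Nat.one_le_two_pow
    calc Bd N (h + 1) = N ^ 2 * (4 * N ^ 2 + 2 + Bd N h) := rfl
      _ ≤ N ^ 2 * (4 * N ^ 2 + 2 + 2 ^ ((4 * a + 3) * h)) := by gcongr
      _ ≤ N ^ 2 * ((4 * N ^ 2 + 2 + 1) * 2 ^ ((4 * a + 3) * h)) := by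
        apply Nat.mul_le_mul_left
        nlinarith
      _ = N ^ 2 * (4 * N ^ 2 + 2 + 1) * 2 ^ ((4 * a + 3) * h) := by ring
      _ ≤ 2 ^ (4 * a + 3) * 2 ^ ((4 * a + 3) * h) := Nat.mul_le_mul_right _ h1
      _ = _ := by rw [← pow_add]; congr 1; ring

theorem UB_le {N a : ℕ} (hN : 1 ≤ N) (hNa : N ≤ 2 ^ a) :
    UB N ≤ 2 ^ ((4 * a + 3) * (a + 2) + 4) := by
  have hlog : Nat.log 2 N ≤ a := by
    have := Nat.log_mono_right (b := 2) hNa
    rwa [Nat.log_pow (by norm_num)] at this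
  have h1 := Bd_le hN hNa (Nat.log 2 N + 2)
  have h2 : 2 ^ ((4 * a + 3) * (Nat.log 2 N + 2)) ≤ 2 ^ ((4 * a + 3) * (a + 2)) :=
    Nat.pow_le_pow_right (by norm_num) (Nat.mul_le_mul_left _ (by omega))
  have h3 : 2 ^ a ≤ 2 ^ ((4 * a + 3) * (a + 2)) :=
    Nat.pow_le_pow_right (by norm_num) (by nlinarith)
  have h4 : 1 ≤ 2 ^ ((4 * a + 3) * (a + 2)) := Nat.one_le_two_pow
  unfold UB
  rw [pow_add]
  omega

end Pool.Agent.R575.QR
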