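import Pool.Agent.Helper178.GramLfp
import Pool.Agent.R575.QR.Up

set_option autoImplicit false
set_option linter.unusedVariables false

namespace Pool.Agent.R575.QR

open Symbol Pool.Agent.Helper178.Gram

/-- Nonterminals. -/
inductive NT
  | Z
  | S
  | A
  | O
  | D
  | T (f : Bool)
  | U (f : Bool)
  | P (f : Bool)
  | Q (f : Bool)
  | R (f : Bool)
  deriving DecidableEq

/-- Symbols. -/
abbrev Sm := Symbol Lt NT

/-- All the letters. -/
def lts : List Lt := [.op false, .op true, .cl false, .cl true, .c, .d, .e, .g]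

theorem mem_lts (t : Lt) : t ∈ lts := by
  rcases t with (f | f | _ | _ | _ | _)
  all_goals first | (cases f <;> simp [lts]) | simp [lts]

/-- Rules without parameter. -/
def rl0 : List (ContextFreeRule Lt NT) := [
  ⟨.Z, [nonterminal .S]⟩,
  ⟨.A, []⟩,
  ⟨.S, []⟩,
  ⟨.D, [nonterminal .O]⟩,
  ⟨.D, [terminal .d, nonterminal .D]⟩,
  ⟨.P true, [terminal .c, terminal .c, nonterminal (.P true), terminal .c]⟩,
  ⟨.P true, [terminal .c, nonterminal .D, terminal .c]⟩,
  ⟨.R true, [terminal .e, terminal .e, nonterminal (.R true), terminal .c]⟩,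
  ⟨.R true, [terminal .e, nonterminal .O, terminal .c]⟩]

/-- Rules with a parameter. -/
def rl1 (f : Bool) : List (ContextFreeRule Lt NT) := [
  ⟨.Z, [nonterminal .A, terminal (.op f), nonterminal (.P f), nonterminal .A]⟩,
  ⟨.Z, [nonterminal .A, terminal (.cl f), nonterminal (.Q (!f)), nonterminal .A]⟩,
  ⟨.S, [terminal (.op f), nonterminal (.T f), nonterminal .S]⟩,
  ⟨.T f, [terminal .c, nonterminal (.T f), terminal .e]⟩,
  ⟨.T f, [terminal .c, nonterminal (.U f), terminal .e]⟩,
  ⟨.U f, [terminal .d, nonterminal (.U f), terminal .g]⟩,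
  ⟨.U f, [terminal .d, nonterminal .S, terminal (.cl f), terminal .g]⟩,
  ⟨.O, [terminal (.op f)]⟩,
  ⟨.P f, [nonterminal (.P f), terminal .c]⟩,
  ⟨.P f, [nonterminal .D, terminal .c]⟩,
  ⟨.P f, [terminal .c, nonterminal (.P f), terminal .c]⟩,
  ⟨.Q f, [terminal .g, nonterminal (.Q f)]⟩,
  ⟨.Q f, [nonterminal (.R f)]⟩,
  ⟨.R f, [nonterminal (.R f), terminal .c]⟩,
  ⟨.R f, [nonterminal .O, terminal .c]⟩,
  ⟨.R f, [terminal .e, nonterminal (.R f), terminal .c]⟩]

/-- The rules. -/
def rl : List (ContextFreeRule Lt NT) :=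
  rl0 ++ (lts.map (fun t => ⟨.A, [terminal t, nonterminal .A]⟩) ++ [false, true].flatMap rl1)

/-- The grammar. -/
def gr (I : NT) : ContextFreeGrammar Lt where
  NT := NT
  initial := I
  rules := rl.toFinset

theorem mem_gr (I : NT) (r : ContextFreeRule Lt NT) : r ∈ (gr I).rules ↔ r ∈ rl := by
  show r ∈ rl.toFinset ↔ _
  exact List.mem_toFinset

theorem mem_rl1 {f : Bool} {r : ContextFreeRule Lt NT} (h : r ∈ rl1 f) : r ∈ rl := by
  unfold rl
  rw [List.mem_append, List.mem_append]
  refine Or.inr (Or.inr (List.mem_flatMap.mpr ⟨f, ?_, h⟩))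
  cases f <;> simp

theorem mem_rl0 {r : ContextFreeRule Lt NT} (h : r ∈ rl0) : r ∈ rl := by
  unfold rl
  rw [List.mem_append]
  exact Or.inl h

theorem mem_rlA (t : Lt) : (⟨.A, [terminal t, nonterminal .A]⟩ : ContextFreeRule Lt NT) ∈ rl := by
  unfold rl
  rw [List.mem_append, List.mem_append]
  exact Or.inr (Or.inl (List.mem_map.mpr ⟨t, mem_lts t, rfl⟩))

/-- The interpretation. -/
def In : NT → List Lt → Prop
  | .Z, w => E w ∨ V w
  | .S, w => E w
  | .A, _ => True
  | .O, w => ∃ f, w = [Lt.op f]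
  | .D, w => ∃ k f, w = rp k Lt.d ++ [Lt.op f]
  | .T f, w => ∃ l k u, E u ∧ w = rp (l + 1) Lt.c ++ (rp (k + 1) Lt.d ++
      (u ++ (Lt.cl f :: (rp (k + 1) Lt.g ++ rp (l + 1) Lt.e))))
  | .U f, w => ∃ k u, E u ∧ w = rp (k + 1) Lt.d ++ (u ++ (Lt.cl f :: rp (k + 1) Lt.g))
  | .P f, w => ∃ l k f' m, l < ki f * m ∧
      w = rp l Lt.c ++ (rp k Lt.d ++ (Lt.op f' :: rp m Lt.c))
  | .Q f, w => ∃ k l f' m, l < ki f * m ∧
      w = rp k Lt.g ++ (rp l Lt.e ++ (Lt.op f' :: rp m Lt.c))
  | .R f, w => ∃ l f' m, l < ki f * m ∧ w = rp l Lt.e ++ (Lt.op f' :: rp m Lt.c)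

theorem rp_succ' {X : Type} (n : ℕ) (a : X) : rp n a ++ [a] = rp (n + 1) a := by
  rw [rp, rp, List.replicate_succ']

theorem rp_succ {X : Type} (n : ℕ) (a : X) : a :: rp n a = rp (n + 1) a := by
  rw [rp, rp, List.replicate_succ]

theorem ki_not (f : Bool) : ki (!f) = kr f := by cases f <;> rfl

theorem ki_two (f : Bool) : ki f = 1 ∨ ki f = 2 := by cases f <;> simp [ki]

theorem In_closed : ∀ r ∈ rl, ∀ w, Yl In r.output w → In r.input w := by
  intro r hr
  simp only [rl, List.mem_append, List.mem_map, List.mem_flatMap] at hr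
  rcases hr with hr | ⟨t, _, rfl⟩ | ⟨f, _, hr⟩
  · simp only [rl0, List.mem_cons, List.not_mem_nil, or_false] at hr
    rcases hr with rfl | rfl | rfl | rfl | rfl | rfl | rfl | rfl | rfl
    · rintro _ ⟨w1, _, rfl, h, rfl⟩
      left
      rw [List.append_nil]
      exact h
    · intro _ _; trivial
    · rintro _ rfl
      exact .nil
    · rintro _ ⟨_, _, rfl, ⟨f, rfl⟩, rfl⟩
      exact ⟨0, f, rfl⟩
    · rintro _ ⟨_, rfl, _, _, rfl, ⟨k, f, rfl⟩, rfl⟩
      exact ⟨k + 1, f, by rw [List.append_nil, ← rp_succ]; rfl⟩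
    · rintro _ ⟨_, rfl, _, rfl, _, _, rfl, ⟨l, k, f', m, h, rfl⟩, _, rfl, rfl⟩
      refine ⟨l + 1 + 1, k, f', m + 1, ?_, ?_⟩
      · simp only [ki] at h ⊢; omega
      · rw [← rp_succ (l + 1), ← rp_succ l, ← rp_succ' m]
        simp only [List.append_assoc, List.cons_append]
    · rintro _ ⟨_, rfl, _, _, rfl, ⟨k, f, rfl⟩, _, rfl, rfl⟩
      refine ⟨1, k, f, 1, by simp [ki], ?_⟩
      simp [rp]
    · rintro _ ⟨_, rfl, _, rfl, _, _, rfl, ⟨l, f', m, h, rfl⟩, _, rfl, rfl⟩
      refine ⟨l + 1 + 1, f', m + 1, ?_, ?_⟩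
      · simp only [ki] at h ⊢; omega
      · rw [← rp_succ (l + 1), ← rp_succ l, ← rp_succ' m]
        simp only [List.append_assoc, List.cons_append]
    · rintro _ ⟨_, rfl, _, _, rfl, ⟨f, rfl⟩, _, rfl, rfl⟩
      refine ⟨1, f, 1, by simp [ki], ?_⟩
      simp [rp]
  · intro _ _; trivial
  · simp only [rl1, List.mem_cons, List.not_mem_nil, or_false] at hr
    rcases hr with rfl | rfl | rfl | rfl | rfl | rfl | rfl | rfl | rfl | rfl | rfl | rfl | rfl |
      rfl | rfl | rfl
    · rintro _ ⟨α, _, rfl, _, _, rfl, _, _, rfl, ⟨l, k, f', m, h, rfl⟩, β, _, rfl, _, rfl⟩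
      right
      refine ⟨α, f, f', l, k, m, β, Or.inl ⟨?_, h⟩⟩
      simp [vi]
    · rintro _ ⟨α, _, rfl, _, _, rfl, _, _, rfl, ⟨k, l, f', m, h, rfl⟩, β, _, rfl, _, rfl⟩
      right
      refine ⟨α, f, f', l, k, m, β, Or.inr ⟨?_, ?_⟩⟩
      · simp [vr]
      · rw [← ki_not]; exact h
    · rintro _ ⟨_, rfl, _, _, rfl, ⟨l, k, u, hu, rfl⟩, v, _, rfl, hv, rfl⟩
      have := E.node f l k u v hu hv
      show E _
      simpa only [nd, List.append_assoc, List.cons_append, List.append_nil] using this
    · rintro _ ⟨_, rfl, _, _, rfl, ⟨l, k, u, hu, rfl⟩, _, rfl, rfl⟩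
      refine ⟨l + 1, k, u, hu, ?_⟩
      rw [← rp_succ (l + 1) Lt.c, ← rp_succ' (l + 1) Lt.e]
      simp only [List.append_assoc, List.cons_append]
    · rintro _ ⟨_, rfl, _, _, rfl, ⟨k, u, hu, rfl⟩, _, rfl, rfl⟩
      refine ⟨0, k, u, hu, ?_⟩
      simp [rp]
    · rintro _ ⟨_, rfl, _, _, rfl, ⟨k, u, hu, rfl⟩, _, rfl, rfl⟩
      refine ⟨k + 1, u, hu, ?_⟩
      rw [← rp_succ (k + 1) Lt.d, ← rp_succ' (k + 1) Lt.g]
      simp only [List.append_assoc, List.cons_append]
    · rintro _ ⟨_, rfl, u, _, rfl, hu, _, rfl, _, rfl, rfl⟩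
      exact ⟨0, u, hu, by simp [rp]⟩
    · rintro _ ⟨_, rfl, rfl⟩
      exact ⟨f, rfl⟩
    · rintro _ ⟨_, _, rfl, ⟨l, k, f', m, h, rfl⟩, _, rfl, rfl⟩
      refine ⟨l, k, f', m + 1, ?_, ?_⟩
      · have : ki f * (m + 1) = ki f * m + ki f := by ring
        omega
      · rw [← rp_succ' m]
        simp only [List.append_assoc, List.cons_append]
    · rintro _ ⟨_, _, rfl, ⟨k, f', rfl⟩, _, rfl, rfl⟩
      refine ⟨0, k, f', 1, ?_, ?_⟩
      · have := ki_pos f
        omega
      · simp [rp]
    · rintro _ ⟨_, rfl, _, _, rfl, ⟨l, k, f', m, h, rfl⟩, _, rfl, rfl⟩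
      refine ⟨l + 1, k, f', m + 1, ?_, ?_⟩
      · have : ki f * (m + 1) = ki f * m + ki f := by ring
        have := ki_pos f
        omega
      · rw [← rp_succ l, ← rp_succ' m]
        simp only [List.append_assoc, List.cons_append]
    · rintro _ ⟨_, rfl, _, _, rfl, ⟨k, l, f', m, h, rfl⟩, rfl⟩
      refine ⟨k + 1, l, f', m, h, ?_⟩
      rw [← rp_succ k]
      simp only [List.append_assoc, List.cons_append, List.append_nil]
    · rintro _ ⟨_, _, rfl, ⟨l, f', m, h, rfl⟩, rfl⟩
      refine ⟨0, l, f', m, h, ?_⟩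
      simp [rp]
    · rintro _ ⟨_, _, rfl, ⟨l, f', m, h, rfl⟩, _, rfl, rfl⟩
      refine ⟨l, f', m + 1, ?_, ?_⟩
      · have : ki f * (m + 1) = ki f * m + ki f := by ring
        omega
      · rw [← rp_succ' m]
        simp only [List.append_assoc, List.cons_append]
    · rintro _ ⟨_, _, rfl, ⟨f', rfl⟩, _, rfl, rfl⟩
      refine ⟨0, f', 1, ?_, ?_⟩
      · have := ki_pos f
        omega
      · simp [rp]
    · rintro _ ⟨_, rfl, _, _, rfl, ⟨l, f', m, h, rfl⟩, _, rfl, rfl⟩
      refine ⟨l + 1, f', m + 1, ?_, ?_⟩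
      · have : ki f * (m + 1) = ki f * m + ki f := by ring
        have := ki_pos f
        omega
      · rw [← rp_succ l, ← rp_succ' m]
        simp only [List.append_assoc, List.cons_append]

/-- Words derived from a nonterminal of the grammar. -/
abbrev Dr (I A : NT) (w : List Lt) : Prop := Der (gr I) A w

variable {I : NT}

theorem dr_rule {A : NT} {s : List Sm} (h : (⟨A, s⟩ : ContextFreeRule Lt NT) ∈ rl) {w : List Lt}
    (hw : Yl (Dr I) s w) : Dr I A w :=
  complete (g := gr I) (r := ⟨A, s⟩) ((mem_gr I _).mpr h) hw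

theorem dr_A (w : List Lt) : Dr I .A w := by
  induction w with
  | nil => exact dr_rule (s := []) (mem_rl0 (by simp [rl0])) rfl
  | cons t w ih =>
    exact dr_rule (mem_rlA t) ⟨w, rfl, w, [], by simp, ih, rfl⟩

theorem dr_O (f : Bool) : Dr I .O [Lt.op f] :=
  dr_rule (s := [terminal (.op f)]) (mem_rl1 (f := f) (by simp [rl1])) ⟨[], rfl, rfl⟩

theorem dr_D (k : ℕ) (f : Bool) : Dr I .D (rp k Lt.d ++ [Lt.op f]) := by
  induction k with
  | zero =>
    exact dr_rule (s := [nonterminal .O]) (mem_rl0 (by simp [rl0]))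
      ⟨[Lt.op f], [], by simp, dr_O f, rfl⟩
  | succ k ih =>
    exact dr_rule (s := [terminal .d, nonterminal .D]) (mem_rl0 (by simp [rl0]))
      ⟨rp k Lt.d ++ [Lt.op f], by rw [← rp_succ]; rfl, _, [], (List.append_nil _).symm, ih, rfl⟩

theorem dr_P (f f' : Bool) (k : ℕ) : ∀ m l, l < ki f * m →
    Dr I (.P f) (rp l Lt.c ++ (rp k Lt.d ++ (Lt.op f' :: rp m Lt.c))) := by
  intro m
  induction m with
  | zero => intro l h; omega
  | succ m ih =>
    intro l h
    have hm : ki f * (m + 1) = ki f * m + ki f := by ring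
    by_cases h1 : l < ki f * m
    · refine dr_rule (s := [nonterminal (.P f), terminal .c]) (mem_rl1 (f := f) (by simp [rl1]))
        ⟨_, [Lt.c], ?_, ih l h1, [], rfl, rfl⟩
      rw [← rp_succ' m]
      simp only [List.append_assoc, List.cons_append]
    · cases l with
      | zero =>
        have hm0 : m = 0 := by
          rcases Nat.eq_zero_or_pos m with h0 | h0
          · exact h0
          · have h3 := Nat.mul_pos (ki_pos f) h0
            omega
        subst hm0
        refine dr_rule (s := [nonterminal .D, terminal .c]) (mem_rl1 (f := f) (by simp [rl1]))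
          ⟨_, [Lt.c], ?_, dr_D k f', [], rfl, rfl⟩
        simp [rp]
      | succ l =>
        by_cases h2 : l < ki f * m
        · refine dr_rule (s := [terminal .c, nonterminal (.P f), terminal .c])
            (mem_rl1 (f := f) (by simp [rl1])) ⟨rp l Lt.c ++ (rp k Lt.d ++ (Lt.op f' ::
              rp (m + 1) Lt.c)), ?_, _, [Lt.c], ?_, ih l h2, [], rfl, rfl⟩
          · rw [← rp_succ l]; rfl
          · rw [← rp_succ' m]
            simp only [List.append_assoc, List.cons_append]
        · -- here the factor is two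
          cases f with
          | false => simp only [ki] at h h2; omega
          | true =>
            simp only [ki] at h h2
            cases l with
            | zero =>
              have hm0 : m = 0 := by omega
              subst hm0
              refine dr_rule (s := [terminal .c, nonterminal .D, terminal .c])
                (mem_rl0 (by simp [rl0])) ⟨rp k Lt.d ++ (Lt.op f' :: rp 1 Lt.c), ?_, _, [Lt.c],
                  ?_, dr_D k f', [], rfl, rfl⟩
              · simp [rp]
              · simp [rp]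
            | succ l =>
              refine dr_rule (s := [terminal .c, terminal .c, nonterminal (.P true), terminal .c])
                (mem_rl0 (by simp [rl0])) ⟨rp (l + 1) Lt.c ++ (rp k Lt.d ++ (Lt.op f' ::
                  rp (m + 1) Lt.c)), ?_, rp l Lt.c ++ (rp k Lt.d ++ (Lt.op f' ::
                  rp (m + 1) Lt.c)), ?_, _, [Lt.c], ?_, ih l ?_, [], rfl, rfl⟩
              · rw [← rp_succ (l + 1)]; rfl
              · rw [← rp_succ l]; rfl
              · rw [← rp_succ' m]
                simp only [List.append_assoc, List.cons_append]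
              · simp only [ki]; omega

theorem dr_R (f f' : Bool) : ∀ m l, l < ki f * m →
    Dr I (.R f) (rp l Lt.e ++ (Lt.op f' :: rp m Lt.c)) := by
  intro m
  induction m with
  | zero => intro l h; omega
  | succ m ih =>
    intro l h
    have hm : ki f * (m + 1) = ki f * m + ki f := by ring
    by_cases h1 : l < ki f * m
    · refine dr_rule (s := [nonterminal (.R f), terminal .c]) (mem_rl1 (f := f) (by simp [rl1]))
        ⟨_, [Lt.c], ?_, ih l h1, [], rfl, rfl⟩
      rw [← rp_succ' m]
      simp only [List.append_assoc, List.cons_append]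
    · cases l with
      | zero =>
        have hm0 : m = 0 := by
          rcases Nat.eq_zero_or_pos m with h0 | h0
          · exact h0
          · have h3 := Nat.mul_pos (ki_pos f) h0
            omega
        subst hm0
        refine dr_rule (s := [nonterminal .O, terminal .c]) (mem_rl1 (f := f) (by simp [rl1]))
          ⟨_, [Lt.c], ?_, dr_O f', [], rfl, rfl⟩
        simp [rp]
      | succ l =>
        by_cases h2 : l < ki f * m
        · refine dr_rule (s := [terminal .e, nonterminal (.R f), terminal .c])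
            (mem_rl1 (f := f) (by simp [rl1])) ⟨rp l Lt.e ++ (Lt.op f' ::
              rp (m + 1) Lt.c), ?_, _, [Lt.c], ?_, ih l h2, [], rfl, rfl⟩
          · rw [← rp_succ l]; rfl
          · rw [← rp_succ' m]
            simp only [List.append_assoc, List.cons_append]
        · -- here the factor is two
          cases f with
          | false => simp only [ki] at h h2; omega
          | true =>
            simp only [ki] at h h2
            cases l with
            | zero =>
              have hm0 : m = 0 := by omega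
              subst hm0
              refine dr_rule (s := [terminal .e, nonterminal .O, terminal .c])
                (mem_rl0 (by simp [rl0])) ⟨(Lt.op f' :: rp 1 Lt.c), ?_, _, [Lt.c],
                  ?_, dr_O f', [], rfl, rfl⟩
              · simp [rp]
              · simp [rp]
            | succ l =>
              refine dr_rule (s := [terminal .e, terminal .e, nonterminal (.R true), terminal .c])
                (mem_rl0 (by simp [rl0])) ⟨rp (l + 1) Lt.e ++ (Lt.op f' ::
                  rp (m + 1) Lt.c), ?_, rp l Lt.e ++ (Lt.op f' ::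
                  rp (m + 1) Lt.c), ?_, _, [Lt.c], ?_, ih l ?_, [], rfl, rfl⟩
              · rw [← rp_succ (l + 1)]; rfl
              · rw [← rp_succ l]; rfl
              · rw [← rp_succ' m]
                simp only [List.append_assoc, List.cons_append]
              · simp only [ki]; omega

theorem dr_Q (f f' : Bool) (m l k : ℕ) (h : l < ki f * m) :
    Dr I (.Q f) (rp k Lt.g ++ (rp l Lt.e ++ (Lt.op f' :: rp m Lt.c))) := by
  induction k with
  | zero =>
    refine dr_rule (s := [nonterminal (.R f)]) (mem_rl1 (f := f) (by simp [rl1]))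
      ⟨_, [], ?_, dr_R f f' m l h, rfl⟩
    simp [rp]
  | succ k ih =>
    refine dr_rule (s := [terminal .g, nonterminal (.Q f)]) (mem_rl1 (f := f) (by simp [rl1]))
      ⟨_, ?_, _, [], (List.append_nil _).symm, ih, rfl⟩
    rw [← rp_succ k]; rfl

theorem dr_S {w : List Lt} (hw : E w) : Dr I .S w := by
  induction hw with
  | nil => exact dr_rule (s := []) (mem_rl0 (by simp [rl0])) rfl
  | node f l k u v hu hv ihu ihv =>
    have hU : ∀ k, Dr I (.U f) (rp (k + 1) Lt.d ++ (u ++ (Lt.cl f :: rp (k + 1) Lt.g))) := by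
      intro k
      induction k with
      | zero =>
        refine dr_rule (s := [terminal .d, nonterminal .S, terminal (.cl f), terminal .g])
          (mem_rl1 (f := f) (by simp [rl1])) ⟨u ++ (Lt.cl f :: rp 1 Lt.g), rfl, u,
            (Lt.cl f :: rp 1 Lt.g), rfl, ihu, [Lt.g], rfl, [], rfl, rfl⟩
      | succ k ih =>
        refine dr_rule (s := [terminal .d, nonterminal (.U f), terminal .g])
          (mem_rl1 (f := f) (by simp [rl1])) ⟨rp (k + 1) Lt.d ++ (u ++ (Lt.cl f ::
            rp (k + 1 + 1) Lt.g)), ?_, _, [Lt.g], ?_, ih, [], rfl, rfl⟩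
        · rw [← rp_succ (k + 1) Lt.d]; rfl
        · rw [← rp_succ' (k + 1) Lt.g]
          simp only [List.append_assoc, List.cons_append]
    have hT : ∀ l, Dr I (.T f) (rp (l + 1) Lt.c ++ (rp (k + 1) Lt.d ++
      (u ++ (Lt.cl f :: (rp (k + 1) Lt.g ++ rp (l + 1) Lt.e))))) := by
      intro l
      induction l with
      | zero =>
        refine dr_rule (s := [terminal .c, nonterminal (.U f), terminal .e])
          (mem_rl1 (f := f) (by simp [rl1])) ⟨rp (k + 1) Lt.d ++ (u ++ (Lt.cl f ::
            (rp (k + 1) Lt.g ++ rp 1 Lt.e))), rfl, _, [Lt.e], ?_, hU k, [], rfl, rfl⟩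
        simp [rp]
      | succ l ih =>
        refine dr_rule (s := [terminal .c, nonterminal (.T f), terminal .e])
          (mem_rl1 (f := f) (by simp [rl1])) ⟨rp (l + 1) Lt.c ++ (rp (k + 1) Lt.d ++ (u ++
            (Lt.cl f :: (rp (k + 1) Lt.g ++ rp (l + 1 + 1) Lt.e)))), ?_, _, [Lt.e], ?_, ih, [],
            rfl, rfl⟩
        · rw [← rp_succ (l + 1) Lt.c]; rfl
        · rw [← rp_succ' (l + 1) Lt.e]
          simp only [List.append_assoc, List.cons_append]
    refine dr_rule (s := [terminal (.op f), nonterminal (.T f), nonterminal .S])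
      (mem_rl1 (f := f) (by simp [rl1])) ⟨_, rfl, _, v, ?_, hT l, v, [], by simp, ihv, rfl⟩
    simp only [List.append_assoc, List.cons_append]

theorem In_gr {I : NT} {w : List Lt} (h : w ∈ (gr I).language) : In I w := by
  rw [ContextFreeGrammar.mem_language_iff] at h
  have h1 := sound (g := gr I) (I := In)
    (fun r hr w h => In_closed r ((mem_gr I r).mp hr) w h) h
  obtain ⟨w1, w2, rfl, h2, h3⟩ := h1
  have h3' : w2 = [] := h3
  subst h3'
  rw [List.append_nil]
  exact h2

theorem E_contextFree : Language.IsContextFree ({w | E w} : Language Lt) := by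
  refine ⟨gr .S, ?_⟩
  ext w
  constructor
  · intro h
    exact In_gr h
  · intro h
    rw [ContextFreeGrammar.mem_language_iff]
    exact dr_S (I := .S) h

theorem L_contextFree : L.IsContextFree := by
  refine ⟨gr .Z, ?_⟩
  ext w
  constructor
  · intro h
    exact In_gr h
  · intro h
    rw [ContextFreeGrammar.mem_language_iff]
    have : Dr .Z .Z w := by
      rcases h with h | ⟨α, f, f', l, k, m, β, ⟨rfl, h⟩ | ⟨rfl, h⟩⟩
      · exact dr_rule (s := [nonterminal .S]) (mem_rl0 (by simp [rl0]))
          ⟨w, [], by simp, dr_S h, rfl⟩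
      · refine dr_rule (s := [nonterminal .A, terminal (.op f), nonterminal (.P f),
          nonterminal .A]) (mem_rl1 (f := f) (by simp [rl1])) ⟨α, _, rfl, dr_A α, _, rfl, _, β,
            ?_, dr_P f f' k m l h, β, [], by simp, dr_A β, rfl⟩
        simp only [List.append_assoc, List.cons_append]
      · rw [← ki_not] at h
        refine dr_rule (s := [nonterminal .A, terminal (.cl f), nonterminal (.Q (!f)),
          nonterminal .A]) (mem_rl1 (f := f) (by simp [rl1])) ⟨α, _, rfl, dr_A α, _, rfl, _, β,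
            ?_, dr_Q (!f) f' m l k h, β, [], by simp, dr_A β, rfl⟩
        simp only [List.append_assoc, List.cons_append]
    exact this

end Pool.Agent.R575.QR
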