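import Pool.Agent.Helper178.GramLfp

set_option autoImplicit false
set_option linter.unusedVariables false

namespace Pool.Agent.R575.QR

open Symbol Pool.Agent.Helper178.Gram

/-! ### quasi-rational languages -/

/-- A context-free grammar is linear when every right-hand side contains at most one
nonterminal. -/
def LinearGrammar {X : Type} (G : ContextFreeGrammar X) : Prop :=
  ∀ r ∈ G.rules, (∃ u : List X, r.output = u.map terminal) ∨
    ∃ (u : List X) (B : G.NT) (v : List X),
      r.output = u.map terminal ++ nonterminal B :: v.map terminal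

/-- Linear languages. -/
def IsLinear {X : Type} (K : Language X) : Prop :=
  ∃ G : ContextFreeGrammar X, LinearGrammar G ∧ G.language = K

/-- Substitution: each letter `x` of a word of `K` is replaced by a word of `s x`. -/
def subst {X Y : Type} (K : Language X) (s : X → Language Y) : Language Y :=
  {w | ∃ u ∈ K, w ∈ (u.map s).prod}

/-- The quasi-rational languages (over finite alphabets): the smallest family that contains the
linear languages and is closed under substitution. -/
inductive Qrt : (Y : Type) → Language Y → Prop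
  | linear (Y : Type) (hY : Finite Y) (K : Language Y) : IsLinear K → Qrt Y K
  | subst (X Y : Type) (hX : Finite X) (hY : Finite Y) (K : Language X) (s : X → Language Y) :
      Qrt X K → (∀ x, Qrt Y (s x)) → Qrt Y (subst K s)

/-! ### ranked grammars -/

/-- Grammars with rules `A → ε`, `A → a` and `A → B C` and a rank function. -/
structure NG (Y : Type) where
  N : Type
  fin : Finite N
  leaf : N → Option Y → Prop
  node : N → N → N → Prop
  rank : N → ℕ
  ok : ∀ a b c, node a b c → (rank b ≤ rank a ∧ rank c < rank a) ∨ (rank b < rank a ∧ rank c ≤ rank a)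
  start : N

/-- The generated words. -/
inductive Gen {Y : Type} (G : NG Y) : G.N → List Y → Prop
  | leaf (a : G.N) (o : Option Y) : G.leaf a o → Gen G a o.toList
  | node (a b c : G.N) (u v : List Y) : G.node a b c → Gen G b u → Gen G c v → Gen G a (u ++ v)

/-- The language of a ranked grammar. -/
def NG.lang {Y : Type} (G : NG Y) : Language Y := {w | Gen G G.start w}

/-! ### linear grammars -/

section lin

variable {X : Type} (G : ContextFreeGrammar X)

/-- The words of symbols that serve as nonterminals. -/
def Ls : Set (List (Symbol X G.NT)) :=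
  {s | s = [] ∨ s = [nonterminal G.initial] ∨ ∃ r ∈ G.rules, s <:+: r.output}

theorem Ls_finite : (Ls G).Finite := by
  have h1 : (⋃ r ∈ G.rules, {s : List (Symbol X G.NT) | s <:+: r.output}).Finite := by
    apply Set.Finite.biUnion (Finset.finite_toSet _)
    intro r _
    apply (List.finite_toSet r.output.sublists).subset
    intro s hs
    rw [Set.mem_ofPred_eq, List.mem_sublists]
    exact List.IsInfix.sublist hs
  apply ((Set.finite_singleton []).union ((Set.finite_singleton [nonterminal G.initial]).union
    h1)).subset
  rintro s (h | h | ⟨r, hr, h⟩)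
  · exact Or.inl h
  · exact Or.inr (Or.inl h)
  · refine Or.inr (Or.inr ?_)
    simp only [Set.mem_iUnion]
    exact ⟨r, hr, h⟩

open Classical in
/-- The rank. -/
noncomputable def lrank (s : List (Symbol X G.NT)) : ℕ :=
  if ∃ B, nonterminal B ∈ s then 2 else if s.length ≤ 1 then 0 else 1

theorem lrank_le (s : List (Symbol X G.NT)) : lrank G s ≤ 2 := by
  unfold lrank
  split_ifs <;> omega

/-- The ranked grammar of a linear grammar. -/
noncomputable def linNG : NG X where
  N := Ls G
  fin := (Ls_finite G).to_subtype
  leaf := fun a o => (a.1 = [] ∧ o = none) ∨ (∃ x, a.1 = [terminal x] ∧ o = some x)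
  node := fun a b c => ((∃ x s, a.1 = x :: s ∧ b.1 = [x] ∧ c.1 = s) ∨
      (∃ r ∈ G.rules, a.1 = [nonterminal r.input] ∧ b.1 = r.output ∧ c.1 = [])) ∧
    ((lrank G b.1 ≤ lrank G a.1 ∧ lrank G c.1 < lrank G a.1) ∨
      (lrank G b.1 < lrank G a.1 ∧ lrank G c.1 ≤ lrank G a.1))
  rank := fun a => lrank G a.1
  ok := fun a b c h => h.2
  start := ⟨[nonterminal G.initial], Or.inr (Or.inl rfl)⟩

theorem linNG_sound {a : (linNG G).N} {w : List X} (h : Gen (linNG G) a w) :
    G.Derives a.1 (w.map terminal) := by
  induction h with
  | leaf a o ho =>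
    rcases ho with ⟨h1, rfl⟩ | ⟨x, h1, rfl⟩
    · rw [h1]; exact Relation.ReflTransGen.refl
    · rw [h1]; exact Relation.ReflTransGen.refl
  | node a b c u v hn _ _ ih1 ih2 =>
    rw [List.map_append]
    rcases hn.1 with ⟨x, s, h1, h2, h3⟩ | ⟨r, hr, h1, h2, h3⟩
    · rw [h1, ← List.singleton_append]
      rw [h2] at ih1
      rw [h3] at ih2
      exact (ih1.append_right s).trans (ih2.append_left _)
    · rw [h2] at ih1
      rw [h3] at ih2
      rw [h1]
      have h4 : G.Derives [nonterminal r.input] r.output :=
        Relation.ReflTransGen.head ⟨r, hr, ContextFreeRule.Rewrites.input_output⟩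
          Relation.ReflTransGen.refl
      have h5 := (h4.trans ih1)
      have h6 := ih2.append_left (u.map terminal)
      rw [List.append_nil] at h6
      exact h5.trans h6

theorem lrank_two {s : List (Symbol X G.NT)} {B : G.NT} (h : nonterminal B ∈ s) :
    lrank G s = 2 := by
  unfold lrank
  rw [if_pos ⟨B, h⟩]

theorem lrank_term (v : List X) : lrank G (v.map terminal) ≤ 1 := by
  unfold lrank
  rw [if_neg (by simp)]
  split_ifs <;> omega

theorem lrank_single (x : X) : lrank G [terminal x] = 0 := by
  unfold lrank
  rw [if_neg (by simp)]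
  simp

theorem lrank_long (x : X) (v : List X) (hv : v ≠ []) :
    lrank G (terminal x :: v.map terminal) = 1 := by
  unfold lrank
  rw [if_neg (by simp), if_neg]
  simp only [List.length_cons, List.length_map]
  have := List.length_pos_iff.mpr hv
  omega

theorem lrank_nil : lrank G [] = 0 := by
  unfold lrank
  rw [if_neg (by simp)]
  simp

/-- The interpretation of the nonterminals. -/
def LI (A : G.NT) (w : List X) : Prop :=
  ∀ h : [nonterminal A] ∈ Ls G, Gen (linNG G) ⟨_, h⟩ w

theorem gen_term (v : List X) : ∀ (h : v.map terminal ∈ Ls G)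
    (hs : ∀ t, t <:+: (v.map terminal : List (Symbol X G.NT)) → t ∈ Ls G),
    Gen (linNG G) ⟨_, h⟩ v := by
  induction v with
  | nil =>
    intro h hs
    exact Gen.leaf (G := linNG G) ⟨_, h⟩ none (Or.inl ⟨rfl, rfl⟩)
  | cons x v ih =>
    intro h hs
    by_cases hv : v = []
    · subst hv
      exact Gen.leaf (G := linNG G) ⟨_, h⟩ (some x) (Or.inr ⟨x, rfl, rfl⟩)
    · have h1 : ([terminal x] : List (Symbol X G.NT)) ∈ Ls G := by
        apply hs
        exact ⟨[], v.map terminal, rfl⟩
      have h2 : (v.map terminal : List (Symbol X G.NT)) ∈ Ls G := by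
        apply hs
        exact ⟨[terminal x], [], by simp⟩
      refine Gen.node (G := linNG G) ⟨_, h⟩ ⟨_, h1⟩ ⟨_, h2⟩ [x] v ?_ ?_ (ih h2 ?_)
      · refine ⟨Or.inl ⟨terminal x, v.map terminal, rfl, rfl, rfl⟩, Or.inr ⟨?_, ?_⟩⟩
        · show lrank G [terminal x] < lrank G (terminal x :: v.map terminal)
          rw [lrank_single, lrank_long G x v hv]
          omega
        · show lrank G (v.map terminal) ≤ lrank G (terminal x :: v.map terminal)
          rw [lrank_long G x v hv]
          exact lrank_term G v
      · exact Gen.leaf (G := linNG G) ⟨_, h1⟩ (some x) (Or.inr ⟨x, rfl, rfl⟩)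
      · intro t ht
        apply hs
        exact ht.trans ⟨[terminal x], [], by simp⟩

theorem Yl_term {I : G.NT → List X → Prop} (v w : List X) (h : Yl I (v.map terminal) w) : w = v := by
  induction v generalizing w with
  | nil => exact h
  | cons x v ih =>
    obtain ⟨w', rfl, h1⟩ := h
    rw [ih w' h1]

theorem gen_lin (u : List X) (B : G.NT) (v : List X) :
    ∀ (w : List X) (h : u.map terminal ++ nonterminal B :: v.map terminal ∈ Ls G)
    (hs : ∀ t, t <:+: (u.map terminal ++ nonterminal B :: v.map terminal :
      List (Symbol X G.NT)) → t ∈ Ls G),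
    Yl (LI G) (u.map terminal ++ nonterminal B :: v.map terminal) w → Gen (linNG G) ⟨_, h⟩ w := by
  induction u with
  | nil =>
    rintro w h hs ⟨w1, w2, rfl, h1, h2⟩
    have h3 := Yl_term G v w2 h2
    subst h3
    have h4 : ([nonterminal B] : List (Symbol X G.NT)) ∈ Ls G := by
      apply hs
      exact ⟨[], w2.map terminal, rfl⟩
    have h5 : (w2.map terminal : List (Symbol X G.NT)) ∈ Ls G := by
      apply hs
      exact ⟨[nonterminal B], [], by simp⟩
    refine Gen.node (G := linNG G) ⟨_, h⟩ ⟨_, h4⟩ ⟨_, h5⟩ w1 w2 ?_ (h1 h4) (gen_term G w2 h5 ?_)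
    · refine ⟨Or.inl ⟨nonterminal B, w2.map terminal, rfl, rfl, rfl⟩, Or.inl ⟨?_, ?_⟩⟩
      · show lrank G [nonterminal B] ≤ lrank G (nonterminal B :: w2.map terminal)
        rw [lrank_two G (s := nonterminal B :: w2.map terminal) (B := B) (by simp)]
        exact lrank_le G _
      · show lrank G (w2.map terminal) < lrank G (nonterminal B :: w2.map terminal)
        rw [lrank_two G (s := nonterminal B :: w2.map terminal) (B := B) (by simp)]
        have := lrank_term G w2
        omega
    · intro t ht
      apply hs
      exact ht.trans ⟨[nonterminal B], [], by simp⟩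
  | cons x u ih =>
    rintro w h hs ⟨w', rfl, h1⟩
    have h4 : ([terminal x] : List (Symbol X G.NT)) ∈ Ls G := by
      apply hs
      exact ⟨[], u.map terminal ++ nonterminal B :: v.map terminal, rfl⟩
    have h5 : (u.map terminal ++ nonterminal B :: v.map terminal : List (Symbol X G.NT)) ∈
        Ls G := by
      apply hs
      exact ⟨[terminal x], [], by simp⟩
    refine Gen.node (G := linNG G) ⟨_, h⟩ ⟨_, h4⟩ ⟨_, h5⟩ [x] w' ?_ ?_ (ih w' h5 ?_ h1)
    · refine ⟨Or.inl ⟨terminal x, _, rfl, rfl, rfl⟩, Or.inr ⟨?_, ?_⟩⟩
      · show lrank G [terminal x] < lrank G (terminal x :: (u.map terminal ++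
          nonterminal B :: v.map terminal))
        rw [lrank_single, lrank_two G (s := terminal x :: (u.map terminal ++
          nonterminal B :: v.map terminal)) (B := B) (by simp)]
        omega
      · show lrank G (u.map terminal ++ nonterminal B :: v.map terminal) ≤
          lrank G (terminal x :: (u.map terminal ++ nonterminal B :: v.map terminal))
        rw [lrank_two G (s := terminal x :: (u.map terminal ++
          nonterminal B :: v.map terminal)) (B := B) (by simp)]
        exact lrank_le G _
    · exact Gen.leaf (G := linNG G) ⟨_, h4⟩ (some x) (Or.inr ⟨x, rfl, rfl⟩)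
    · intro t ht
      apply hs
      exact ht.trans ⟨[terminal x], [], by simp⟩

theorem linear_NG (hG : LinearGrammar G) :
    G.language = (linNG G).lang := by
  ext w
  constructor
  · intro hw
    rw [ContextFreeGrammar.mem_language_iff] at hw
    have h1 : Yl (LI G) [nonterminal G.initial] w := by
      refine sound (g := G) (I := LI G) ?_ hw
      intro r hr w hY hin
      have h2 : r.output ∈ Ls G := Or.inr (Or.inr ⟨r, hr, List.infix_refl _⟩)
      have h3 : ([] : List (Symbol X G.NT)) ∈ Ls G := Or.inl rfl
      have h4 : Gen (linNG G) ⟨_, h2⟩ w := by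
        have hs : ∀ t, t <:+: r.output → t ∈ Ls G := fun t ht => Or.inr (Or.inr ⟨r, hr, ht⟩)
        rcases hG r hr with ⟨u, hu⟩ | ⟨u, B, v, hu⟩
        · rw [hu] at hY hs
          have h5 := Yl_term G u w hY
          subst h5
          have h6 := gen_term G w (by rw [← hu]; exact h2) hs
          simpa only [hu] using h6
        · rw [hu] at hY hs
          have h6 := gen_lin G u B v w (by rw [← hu]; exact h2) hs hY
          simpa only [hu] using h6
      have h7 : Gen (linNG G) ⟨_, h3⟩ ([] : List X) :=
        Gen.leaf (G := linNG G) ⟨_, h3⟩ none (Or.inl ⟨rfl, rfl⟩)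
      have h8 := Gen.node (G := linNG G) ⟨_, hin⟩ ⟨_, h2⟩ ⟨_, h3⟩ w [] ?_ h4 h7
      · rwa [List.append_nil] at h8
      · refine ⟨Or.inr ⟨r, hr, rfl, rfl, rfl⟩, Or.inl ⟨?_, ?_⟩⟩
        · show lrank G r.output ≤ lrank G [nonterminal r.input]
          rw [lrank_two G (s := [nonterminal r.input]) (B := r.input) (by simp)]
          exact lrank_le G _
        · show lrank G [] < lrank G [nonterminal r.input]
          rw [lrank_two G (s := [nonterminal r.input]) (B := r.input) (by simp), lrank_nil]
          omega
    obtain ⟨w1, w2, rfl, h2, h3⟩ := h1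
    have h3' : w2 = [] := h3
    subst h3'
    rw [List.append_nil]
    exact h2 _
  · intro hw
    rw [ContextFreeGrammar.mem_language_iff]
    exact linNG_sound G hw

end lin

/-! ### substitution -/

section sub

variable {X Y : Type}

/-- Leaf rules of the substituted grammar. -/
inductive SLeaf (G : NG X) (H : X → NG Y) : G.N ⊕ ((Σ x, (H x).N) ⊕ Unit) → Option Y → Prop
  | outer (a : G.N) : G.leaf a none → SLeaf G H (.inl a) none
  | inner (x : X) (a : (H x).N) (o : Option Y) : (H x).leaf a o →
      SLeaf G H (.inr (.inl ⟨x, a⟩)) o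
  | unit : SLeaf G H (.inr (.inr ())) none

/-- Node rules of the substituted grammar. -/
inductive SNode (G : NG X) (H : X → NG Y) : G.N ⊕ ((Σ x, (H x).N) ⊕ Unit) →
    G.N ⊕ ((Σ x, (H x).N) ⊕ Unit) → G.N ⊕ ((Σ x, (H x).N) ⊕ Unit) → Prop
  | outer (a b c : G.N) : G.node a b c → SNode G H (.inl a) (.inl b) (.inl c)
  | enter (a : G.N) (x : X) : G.leaf a (some x) →
      SNode G H (.inl a) (.inr (.inl ⟨x, (H x).start⟩)) (.inr (.inr ()))
  | inner (x : X) (a b c : (H x).N) : (H x).node a b c →
      SNode G H (.inr (.inl ⟨x, a⟩)) (.inr (.inl ⟨x, b⟩)) (.inr (.inl ⟨x, c⟩))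

/-- The rank of the substituted grammar. -/
def SRank (G : NG X) (H : X → NG Y) (M : ℕ) : G.N ⊕ ((Σ x, (H x).N) ⊕ Unit) → ℕ
  | .inl a => G.rank a + M + 1
  | .inr (.inl s) => (H s.1).rank s.2
  | .inr (.inr _) => 0

variable (G : NG X) (H : X → NG Y) (M : ℕ) (hX : Finite X)
  (hM : ∀ x a, (H x).rank a ≤ M)

include hX hM

/-- The ranked grammar of a substitution. -/
def subNG : NG Y where
  N := G.N ⊕ ((Σ x, (H x).N) ⊕ Unit)
  fin := by
    have := G.fin
    have := fun x => (H x).fin
    infer_instance
  leaf := SLeaf G H
  node := SNode G H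
  rank := SRank G H M
  ok := by
    intro a b c h
    cases h with
    | outer a b c h =>
      have := G.ok a b c h
      simp only [SRank]
      omega
    | enter a x h =>
      have := hM x (H x).start
      simp only [SRank]
      omega
    | inner x a b c h => exact (H x).ok a b c h
  start := .inl G.start

theorem sub_inner {x : X} {a : (H x).N} {w : List Y} :
    Gen (subNG G H M hX hM) (.inr (.inl ⟨x, a⟩)) w ↔ Gen (H x) a w := by
  constructor
  · have key : ∀ (s : (subNG G H M hX hM).N) (w : List Y), Gen (subNG G H M hX hM) s w →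
        ∀ a : (H x).N, .inr (.inl ⟨x, a⟩) = s → Gen (H x) a w := by
      intro s w h
      induction h with
      | leaf s o ho =>
        intro a hs
        subst hs
        have ho' : SLeaf G H (.inr (.inl ⟨x, a⟩)) o := ho
        cases ho' with
        | inner _ _ _ h => exact Gen.leaf a o h
      | node s b c u v hn h1 h2 ih1 ih2 =>
        intro a hs
        subst hs
        have hn' : SNode G H (.inr (.inl ⟨x, a⟩)) b c := hn
        cases hn' with
        | inner _ _ b c h => exact Gen.node a b c u v h (ih1 b rfl) (ih2 c rfl)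
    exact fun h => key _ _ h a rfl
  · intro h
    induction h with
    | leaf a o ho =>
      exact Gen.leaf (G := subNG G H M hX hM) (.inr (.inl ⟨x, a⟩)) o (SLeaf.inner x a o ho)
    | node a b c u v hn _ _ ih1 ih2 =>
      exact Gen.node (G := subNG G H M hX hM) (.inr (.inl ⟨x, a⟩)) (.inr (.inl ⟨x, b⟩))
        (.inr (.inl ⟨x, c⟩)) u v (SNode.inner x a b c hn) ih1 ih2

theorem sub_unit {w : List Y} (h : Gen (subNG G H M hX hM) (.inr (.inr ())) w) : w = [] := by
  have key : ∀ (s : (subNG G H M hX hM).N) (w : List Y), Gen (subNG G H M hX hM) s w →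
      .inr (.inr ()) = s → w = [] := by
    intro s w h
    cases h with
    | leaf s o ho =>
      intro hs
      subst hs
      have ho' : SLeaf G H (.inr (.inr ())) o := ho
      cases ho' with
      | unit => rfl
    | node s b c u v hn _ _ =>
      intro hs
      subst hs
      have hn' : SNode G H (.inr (.inr ())) b c := hn
      cases hn'
  exact key _ _ h rfl

theorem sub_outer {a : G.N} {w : List Y} :
    Gen (subNG G H M hX hM) (.inl a) w ↔
      ∃ u, Gen G a u ∧ w ∈ (u.map fun x => (H x).lang).prod := by
  constructor
  · have key : ∀ (s : (subNG G H M hX hM).N) (w : List Y), Gen (subNG G H M hX hM) s w →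
        ∀ a : G.N, .inl a = s → ∃ u, Gen G a u ∧ w ∈ (u.map fun x => (H x).lang).prod := by
      intro s w h
      induction h with
      | leaf s o ho =>
        intro a hs
        subst hs
        have ho' : SLeaf G H (.inl a) o := ho
        cases ho' with
        | outer _ h1 =>
          refine ⟨[], Gen.leaf a none h1, ?_⟩
          simp
      | node s b c u v hn h1 h2 ih1 ih2 =>
        intro a hs
        subst hs
        have hn' : SNode G H (.inl a) b c := hn
        cases hn' with
        | outer _ b c h =>
          obtain ⟨u1, k1, k2⟩ := ih1 b rfl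
          obtain ⟨v1, k3, k4⟩ := ih2 c rfl
          refine ⟨u1 ++ v1, Gen.node a b c u1 v1 h k1 k3, ?_⟩
          rw [List.map_append, List.prod_append]
          exact ⟨u, k2, v, k4, rfl⟩
        | enter _ y h3 =>
          have h5 := sub_unit G H M hX hM h2
          subst h5
          refine ⟨[y], Gen.leaf a (some y) h3, ?_⟩
          simp only [List.map_cons, List.map_nil, List.prod_cons, List.prod_nil, mul_one,
            List.append_nil]
          exact (sub_inner G H M hX hM).mp h1
    exact fun h => key _ _ h a rfl
  · rintro ⟨u, hu, hw⟩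
    induction hu generalizing w with
    | leaf a o ho =>
      cases o with
      | none =>
        have : w = [] := by simpa using hw
        subst this
        exact Gen.leaf (G := subNG G H M hX hM) (.inl a) none (SLeaf.outer a ho)
      | some x =>
        have h1 : Gen (H x) (H x).start w := by
          simp only [Option.toList_some, List.map_cons, List.map_nil, List.prod_cons,
            List.prod_nil, mul_one] at hw
          exact hw
        have h2 := Gen.node (G := subNG G H M hX hM) (.inl a) (.inr (.inl ⟨x, (H x).start⟩))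
          (.inr (.inr ())) w [] (SNode.enter a x ho) ((sub_inner G H M hX hM).mpr h1)
          (Gen.leaf (G := subNG G H M hX hM) (.inr (.inr ())) none SLeaf.unit)
        rwa [List.append_nil] at h2
    | node a b c u v hn _ _ ih1 ih2 =>
      rw [List.map_append, List.prod_append] at hw
      obtain ⟨w1, h1, w2, h2, rfl⟩ := hw
      exact Gen.node (G := subNG G H M hX hM) (.inl a) (.inl b) (.inl c) w1 w2
        (SNode.outer a b c hn) (ih1 h1) (ih2 h2)

end sub

/-- Every quasi-rational language has a ranked grammar. -/
theorem Qrt.exists_NG {Y : Type} {K : Language Y} (h : Qrt Y K) :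
    Finite Y ∧ ∃ G : NG Y, K = G.lang := by
  induction h with
  | linear Y hY K hK =>
    obtain ⟨G, h1, rfl⟩ := hK
    exact ⟨hY, linNG G, linear_NG G h1⟩
  | subst X Y hX hY K s _ _ ih1 ih2 =>
    refine ⟨hY, ?_⟩
    obtain ⟨_, G, hG⟩ := ih1
    choose h0 H hH using ih2
    have hM : ∃ M, ∀ x a, (H x).rank a ≤ M := by
      have : Finite (Σ x, (H x).N) := by
        have := fun x => (H x).fin
        infer_instance
      obtain ⟨M, hM⟩ := (Set.finite_range (fun s : Σ x, (H x).N => (H s.1).rank s.2)).bddAbove
      exact ⟨M, fun x a => hM ⟨⟨x, a⟩, rfl⟩⟩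
    obtain ⟨M, hM⟩ := hM
    refine ⟨subNG G H M hX hM, ?_⟩
    have h2 : s = fun x => (H x).lang := funext hH
    subst hG h2
    ext w
    exact (sub_outer G H M hX hM (a := G.start) (w := w)).symm

end Pool.Agent.R575.QR
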