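import Pool.Agent.Helper288.ConeTr
import Pool.Agent.R575.QR.Up
import Pool.Agent.R575.QR.Gram

set_option autoImplicit false
set_option linter.unusedVariables false

namespace Pool.Agent.R575.QR

open Pool.Agent.Helper178.Idx (Run Run_append Run_nfa)
open Pool.Agent.Helper288.Cone (InCone)

/-! ### blocks -/

theorem rp_inj {X : Type} {x : X} : ∀ {a b : ℕ} {s s' : List X}, (∀ r, s ≠ x :: r) →
    (∀ r, s' ≠ x :: r) → rp a x ++ s = rp b x ++ s' → a = b ∧ s = s' := by
  intro a
  induction a with
  | zero =>
    intro b s s' hs hs' h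
    cases b with
    | zero => exact ⟨rfl, by simpa [rp] using h⟩
    | succ b => exact absurd (by simpa [rp, List.replicate_succ] using h) (hs (rp b x ++ s'))
  | succ a ih =>
    intro b s s' hs hs' h
    cases b with
    | zero => exact absurd (by simpa [rp, List.replicate_succ] using h.symm) (hs' (rp a x ++ s))
    | succ b =>
      have h1 : rp a x ++ s = rp b x ++ s' := by simpa [rp, List.replicate_succ] using h
      obtain ⟨h2, h3⟩ := ih hs hs' h1
      exact ⟨by omega, h3⟩

theorem rp_le {X : Type} {x : X} : ∀ {a b : ℕ} {s s' : List X}, (∀ r, s ≠ x :: r) →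
    rp a x ++ s = rp b x ++ s' → b ≤ a := by
  intro a
  induction a with
  | zero =>
    intro b s s' hs h
    cases b with
    | zero => exact le_refl _
    | succ b => exact absurd (by simpa [rp, List.replicate_succ] using h) (hs (rp b x ++ s'))
  | succ a ih =>
    intro b s s' hs h
    cases b with
    | zero => exact Nat.zero_le _
    | succ b =>
      have h1 : rp a x ++ s = rp b x ++ s' := by simpa [rp, List.replicate_succ] using h
      have := ih hs h1
      omega

/-- The marks. -/
def Mk : Lt → Prop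
  | .op _ => True
  | .cl _ => True
  | _ => False

/-- A word with no mark. -/
def NM (w : List Lt) : Prop := ∀ a ∈ w, ¬ Mk a

theorem NM_rp {n : ℕ} {a : Lt} (h : ¬ Mk a) : NM (rp n a) := by
  intro b hb
  rw [List.eq_of_mem_replicate hb]
  exact h

theorem NM_append {u v : List Lt} (hu : NM u) (hv : NM v) : NM (u ++ v) := by
  intro a ha
  rcases List.mem_append.mp ha with h | h
  · exact hu a h
  · exact hv a h

theorem NM_split {b : List Lt} (hb : NM b) : ∀ {α : List Lt} {t : Lt} {r x : List Lt}, Mk t →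
    b ++ x = α ++ t :: r → ∃ α', α = b ++ α' ∧ x = α' ++ t :: r := by
  induction b with
  | nil => intro α t r x _ h; exact ⟨α, rfl, h⟩
  | cons a b ih =>
    intro α t r x ht h
    cases α with
    | nil =>
      have h1 : a = t := (List.cons.inj h).1
      exact absurd (h1 ▸ ht) (hb a (by simp))
    | cons a' α =>
      obtain ⟨rfl, h2⟩ := List.cons.inj h
      obtain ⟨α', rfl, h3⟩ := ih (fun c hc => hb c (by simp [hc])) ht h2
      exact ⟨α', rfl, h3⟩

section enc

variable {Y : Type} (G : NG Y)

/-- The coding alphabet: `inl (true, a, b, c)` opens the rule, `inl (false, a, b, c)` closes it,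
and `inr` stands for a leaf rule. -/
abbrev ZA := (Bool × G.N × G.N × G.N) ⊕ (G.N × Option Y)

open Classical in
/-- The flag of a rule. -/
noncomputable def flag (a b c : G.N) : Bool :=
  if G.rank b ≤ G.rank a ∧ G.rank c < G.rank a then false else true

/-- The numbers of the rules. -/
noncomputable def code (t : G.N × G.N × G.N) : ℕ :=
  have := G.fin
  (Finite.equivFin (G.N × G.N × G.N) t : ℕ)

theorem code_inj {s t : G.N × G.N × G.N} (h : code G s = code G t) : s = t := by
  have := G.fin
  exact (Finite.equivFin (G.N × G.N × G.N)).injective (Fin.ext h)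

/-- The first morphism. -/
noncomputable def Hh : ZA G → List Lt
  | .inl (true, t) => Lt.op (flag G t.1 t.2.1 t.2.2) ::
      (rp (2 ^ G.rank t.1) Lt.c ++ rp (code G t + 1) Lt.d)
  | .inl (false, t) => Lt.cl (flag G t.1 t.2.1 t.2.2) ::
      (rp (code G t + 1) Lt.g ++ rp (2 ^ G.rank t.1) Lt.e)
  | .inr _ => []

/-- The second morphism. -/
def Gg : ZA G → List Y
  | .inl _ => []
  | .inr p => p.2.toList

/-- The local constraints. -/
inductive zs : Option G.N → ZA G → Option G.N → Prop
  | op (a b c : G.N) : G.node a b c → zs (some a) (.inl (true, a, b, c)) (some b)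
  | cl (a b c : G.N) : G.node a b c → zs none (.inl (false, a, b, c)) (some c)
  | leaf (a : G.N) (o : Option Y) : G.leaf a o → zs (some a) (.inr (a, o)) none

/-- The coded words. -/
noncomputable abbrev hh (z : List (ZA G)) : List Lt := z.flatMap (Hh G)

theorem hh_head (z : List (ZA G)) : hh G z = [] ∨ ∃ t r, Mk t ∧ hh G z = t :: r := by
  induction z with
  | nil => exact Or.inl rfl
  | cons a z ih =>
    rcases a with ⟨_ | _, t⟩ | p
    · exact Or.inr ⟨Lt.cl _, _, trivial, rfl⟩
    · exact Or.inr ⟨Lt.op _, _, trivial, rfl⟩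
    · exact ih

theorem hh_ne {z : List (ZA G)} {x : Lt} (hx : ¬ Mk x) (r : List Lt) : hh G z ≠ x :: r := by
  intro h
  rcases hh_head G z with h1 | ⟨t, r', ht, h1⟩
  · rw [h1] at h; exact absurd h (by simp)
  · rw [h1] at h
    rw [(List.cons.inj h).1] at ht
    exact hx ht

/-- Splitting a coded word at a mark. -/
theorem hh_split (z : List (ZA G)) : ∀ (α : List Lt) (t : Lt) (r : List Lt), Mk t →
    hh G z = α ++ t :: r → ∃ z1 x z2, z = z1 ++ .inl x :: z2 ∧ hh G z1 = α ∧
      Hh G (.inl x) ++ hh G z2 = t :: r := by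
  induction z with
  | nil => intro α t r _ h; exact absurd h (by simp [hh])
  | cons a z ih =>
    intro α t r ht h
    -- the case of a letter that starts with a mark
    have main : ∀ (x : Bool × G.N × G.N × G.N) (m : Lt) (b : List Lt), a = .inl x →
        Hh G (.inl x) = m :: b → NM b → ∃ z1 x z2, a :: z = z1 ++ .inl x :: z2 ∧ hh G z1 = α ∧
          Hh G (.inl x) ++ hh G z2 = t :: r := by
      intro x m b hax hx hb
      subst hax
      have h0 : m :: (b ++ hh G z) = α ++ t :: r := by
        rw [← h]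
        show _ = Hh G (.inl x) ++ hh G z
        rw [hx]
        rfl
      cases α with
      | nil =>
        refine ⟨[], x, z, rfl, rfl, ?_⟩
        rw [hx]
        exact h0
      | cons m' α =>
        obtain ⟨rfl, h1⟩ := List.cons.inj h0
        obtain ⟨α', rfl, h2⟩ := NM_split hb ht h1
        obtain ⟨z1, x', z2, rfl, h3, h4⟩ := ih α' t r ht h2
        refine ⟨.inl x :: z1, x', z2, rfl, ?_, h4⟩
        show Hh G (.inl x) ++ hh G z1 = _
        rw [hx, h3]
        rfl
    rcases a with ⟨_ | _, p⟩ | p
    · exact main (false, p) _ _ rfl rfl (NM_append (NM_rp (by simp [Mk])) (NM_rp (by simp [Mk])))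
    · exact main (true, p) _ _ rfl rfl (NM_append (NM_rp (by simp [Mk])) (NM_rp (by simp [Mk])))
    · have h0 : hh G z = α ++ t :: r := h
      obtain ⟨z1, x', z2, rfl, h3, h4⟩ := ih α t r ht h0
      exact ⟨.inr p :: z1, x', z2, rfl, h3, h4⟩

/-- Decoding an opening letter. -/
theorem dec_op {x : Bool × G.N × G.N × G.N} {z : List (ZA G)} {f : Bool} {l k : ℕ}
    {r : List Lt} (hr : ∀ s, r ≠ Lt.d :: s) (hr' : ∀ s, r ≠ Lt.c :: s)
    (h : Hh G (.inl x) ++ hh G z = Lt.op f :: (rp l Lt.c ++ (rp k Lt.d ++ r))) :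
    ∃ t, x = (true, t) ∧ f = flag G t.1 t.2.1 t.2.2 ∧ l = 2 ^ G.rank t.1 ∧ k = code G t + 1 ∧
      hh G z = r := by
  obtain ⟨b, t⟩ := x
  cases b with
  | false =>
    have : Lt.cl _ = Lt.op f := (List.cons.inj h).1
    exact absurd this (by simp)
  | true =>
    obtain ⟨h1, h2⟩ := List.cons.inj h
    have h3 : rp (2 ^ G.rank t.1) Lt.c ++ (rp (code G t + 1) Lt.d ++ hh G z) =
        rp l Lt.c ++ (rp k Lt.d ++ r) := by
      rw [← h2]
      exact (List.append_assoc _ _ _).symm
    have hne1 : ∀ s, rp (code G t + 1) Lt.d ++ hh G z ≠ Lt.c :: s := by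
      intro s hs
      rw [rp, List.replicate_succ] at hs
      exact absurd (List.cons.inj hs).1 (by simp)
    have hne2 : ∀ s, rp k Lt.d ++ r ≠ Lt.c :: s := by
      intro s hs
      cases k with
      | zero => exact hr' s (by simpa [rp] using hs)
      | succ k =>
        rw [rp, List.replicate_succ] at hs
        exact absurd (List.cons.inj hs).1 (by simp)
    obtain ⟨h4, h5⟩ := rp_inj hne1 hne2 h3
    obtain ⟨h6, h7⟩ := rp_inj (fun s => hh_ne G (by simp [Mk]) s) hr h5
    refine ⟨t, rfl, ?_, h4.symm, h6.symm, h7⟩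
    exact (Lt.op.inj h1).symm

/-- Decoding a closing letter. -/
theorem dec_cl {x : Bool × G.N × G.N × G.N} {z : List (ZA G)} {f : Bool} {l k : ℕ}
    {r : List Lt} (hr : ∀ s, r ≠ Lt.e :: s) (hr' : ∀ s, r ≠ Lt.g :: s)
    (h : Hh G (.inl x) ++ hh G z = Lt.cl f :: (rp k Lt.g ++ (rp l Lt.e ++ r))) :
    ∃ t, x = (false, t) ∧ f = flag G t.1 t.2.1 t.2.2 ∧ l = 2 ^ G.rank t.1 ∧ k = code G t + 1 ∧
      hh G z = r := by
  obtain ⟨b, t⟩ := x
  cases b with
  | true =>
    have : Lt.op _ = Lt.cl f := (List.cons.inj h).1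
    exact absurd this (by simp)
  | false =>
    obtain ⟨h1, h2⟩ := List.cons.inj h
    have h3 : rp (code G t + 1) Lt.g ++ (rp (2 ^ G.rank t.1) Lt.e ++ hh G z) =
        rp k Lt.g ++ (rp l Lt.e ++ r) := by
      rw [← h2]
      exact (List.append_assoc _ _ _).symm
    have hne1 : ∀ s, rp (2 ^ G.rank t.1) Lt.e ++ hh G z ≠ Lt.g :: s := by
      intro s hs
      obtain ⟨n, hn⟩ : ∃ n, 2 ^ G.rank t.1 = n + 1 :=
        ⟨2 ^ G.rank t.1 - 1, by have := Nat.one_le_two_pow (n := G.rank t.1); omega⟩
      rw [hn, rp, List.replicate_succ] at hs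
      exact absurd (List.cons.inj hs).1 (by simp)
    have hne2 : ∀ s, rp l Lt.e ++ r ≠ Lt.g :: s := by
      intro s hs
      cases l with
      | zero => exact hr' s (by simpa [rp] using hs)
      | succ k =>
        rw [rp, List.replicate_succ] at hs
        exact absurd (List.cons.inj hs).1 (by simp)
    obtain ⟨h4, h5⟩ := rp_inj hne1 hne2 h3
    obtain ⟨h6, h7⟩ := rp_inj (fun s => hh_ne G (by simp [Mk]) s) hr h5
    refine ⟨t, rfl, ?_, h6.symm, h4.symm, h7⟩
    exact (Lt.cl.inj h1).symm

/-- In a consistent word that starts in a nonterminal state and whose code starts with an opening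
mark, the first letter opens a rule of that nonterminal. -/
theorem first_open {a : G.N} {z : List (ZA G)} {s : Option G.N} (hz : Run (zs G) (some a) z s)
    {f' : Bool} {r : List Lt} (h : hh G z = Lt.op f' :: r) :
    ∃ b c z', z = .inl (true, a, b, c) :: z' ∧ G.node a b c ∧ Run (zs G) (some b) z' s := by
  cases z with
  | nil => exact absurd h (by simp [hh])
  | cons x z =>
    obtain ⟨s1, h1, h2⟩ := hz
    cases h1 with
    | op _ b c hn => exact ⟨b, c, z, rfl, hn, h2⟩
    | leaf _ o ho =>
      exfalso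
      have h3 : hh G z = Lt.op f' :: r := h
      cases z with
      | nil => exact absurd h3 (by simp [hh])
      | cons y z =>
        obtain ⟨s2, h4, h5⟩ := h2
        cases h4 with
        | cl a' b' c' hn =>
          have : Lt.cl _ = Lt.op f' := (List.cons.inj h3).1
          exact absurd this (by simp)

theorem lab_le {a : G.N} {b c : G.N} {z : List (ZA G)} {f' : Bool} {m : ℕ} {β : List Lt}
    (h : hh G (.inl (true, a, b, c) :: z) = Lt.op f' :: (rp m Lt.c ++ β)) : m ≤ 2 ^ G.rank a := by
  have h1 : rp (2 ^ G.rank a) Lt.c ++ (rp (code G (a, b, c) + 1) Lt.d ++ hh G z) =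
      rp m Lt.c ++ β := by
    rw [← (List.cons.inj h).2]
    exact (List.append_assoc _ _ _).symm
  refine rp_le ?_ h1
  intro s hs
  rw [rp, List.replicate_succ] at hs
  exact absurd (List.cons.inj hs).1 (by simp)

theorem run_split {σ X : Type} {st : σ → X → σ → Prop} {z1 z2 : List X} {x : X} {p q : σ}
    (h : Run st p (z1 ++ x :: z2) q) : ∃ s t, Run st p z1 s ∧ st s x t ∧ Run st t z2 q := by
  obtain ⟨s, h1, t, h2, h3⟩ := (Run_append _ _ _ _).mp h
  exact ⟨s, t, h1, h2, h3⟩

/-- A consistent word has no violation. -/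
theorem no_V {z : List (ZA G)} {s t : Option G.N} (hz : Run (zs G) s z t) : ¬ V (hh G z) := by
  rintro ⟨α, f, f', l, k, m, β, ⟨h, hlt⟩ | ⟨h, hlt⟩⟩
  · obtain ⟨z1, x, z2, rfl, h1, h2⟩ := hh_split G z α _ _ (by trivial) h
    obtain ⟨t, rfl, hf, hl, hk, h3⟩ := dec_op G (by simp) (by simp) h2
    obtain ⟨s1, s2, g1, g2, g3⟩ := run_split hz
    obtain ⟨a, b, c⟩ := t
    cases g2 with
    | op _ _ _ hn =>
      obtain ⟨b', c', z', rfl, hn', _⟩ := first_open G g3 h3
      have hm := lab_le G h3
      have hok := G.ok a b c hn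
      simp only at hf hl
      subst hf hl
      unfold flag at hlt
      split_ifs at hlt with hc
      · simp only [ki, one_mul] at hlt
        have := Nat.pow_le_pow_right (n := 2) (by norm_num) hc.1
        omega
      · have hb : G.rank b + 1 ≤ G.rank a := by omega
        have := Nat.pow_le_pow_right (n := 2) (by norm_num) hb
        rw [pow_succ] at this
        simp only [ki] at hlt
        omega
  · obtain ⟨z1, x, z2, rfl, h1, h2⟩ := hh_split G z α _ _ (by trivial) h
    obtain ⟨t, rfl, hf, hl, hk, h3⟩ := dec_cl G (by simp) (by simp) h2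
    obtain ⟨s1, s2, g1, g2, g3⟩ := run_split hz
    obtain ⟨a, b, c⟩ := t
    cases g2 with
    | cl _ _ _ hn =>
      obtain ⟨b', c', z', rfl, hn', _⟩ := first_open G g3 h3
      have hm := lab_le G h3
      have hok := G.ok a b c hn
      simp only at hf hl
      subst hf hl
      unfold flag at hlt
      split_ifs at hlt with hc
      · have hb : G.rank c + 1 ≤ G.rank a := by omega
        have := Nat.pow_le_pow_right (n := 2) (by norm_num) hb
        rw [pow_succ] at this
        simp only [kr] at hlt
        omega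
      · have hb : G.rank c ≤ G.rank a := by omega
        have := Nat.pow_le_pow_right (n := 2) (by norm_num) hb
        simp only [kr, one_mul] at hlt
        omega

/-- Trees start with a mark or are empty. -/
theorem E_ne {w : List Lt} (hw : E w) {x : Lt} (hx : ¬ Mk x) (r : List Lt) : w ≠ x :: r := by
  rintro rfl
  cases hw with
  | node f l k u v hu hv => exact hx trivial

theorem E_app_ne {u : List Lt} (hu : E u) {f : Bool} {r : List Lt} {x : Lt} (hx : ¬ Mk x)
    (s : List Lt) : u ++ Lt.cl f :: r ≠ x :: s := by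
  intro h
  cases u with
  | nil =>
    have : Lt.cl f = x := (List.cons.inj h).1
    exact hx (this ▸ trivial)
  | cons y u =>
    have : y = x := (List.cons.inj h).1
    subst this
    exact E_ne hu hx u rfl

/-- Decoding. -/
theorem decode {w : List Lt} (hw : E w) : ∀ (z : List (ZA G)) (a : G.N), hh G z = w →
    Run (zs G) (some a) z none → Gen G a (z.flatMap (Gg G)) := by
  induction hw with
  | nil =>
    intro z a hz hr
    cases z with
    | nil =>
      have : some a = none := hr
      exact absurd this (by simp)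
    | cons x z =>
      obtain ⟨s, h1, h2⟩ := hr
      cases h1 with
      | op _ b c hn => exact absurd hz (by simp [hh, Hh])
      | leaf _ o ho =>
        cases z with
        | nil => simpa [Gg] using Gen.leaf a o ho
        | cons y z =>
          obtain ⟨s2, h4, h5⟩ := h2
          cases h4 with
          | cl a' b' c' hn => exact absurd hz (by simp [hh, Hh])
  | node f l k u v hu hv ihu ihv =>
    intro z a hz hr
    obtain ⟨b, c, z', rfl, hn, hr'⟩ := first_open G hr hz
    obtain ⟨t, ht, hf, hl, hk, h3⟩ := dec_op G (x := (true, a, b, c)) (z := z')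
      (E_app_ne hu (by simp [Mk])) (E_app_ne hu (by simp [Mk])) hz
    obtain rfl : (a, b, c) = t := (Prod.mk.inj ht).2
    obtain ⟨z1, x, z2, rfl, h4, h5⟩ := hh_split G z' u (Lt.cl f) _ trivial h3
    obtain ⟨t, rfl, hf', hl', hk', h6⟩ := dec_cl G (E_ne hv (by simp [Mk]))
      (E_ne hv (by simp [Mk])) h5
    obtain rfl : t = (a, b, c) := by
      apply code_inj G
      omega
    obtain ⟨s1, s2, g1, g2, g3⟩ := run_split hr'
    cases g2 with
    | cl _ _ _ hn' =>
      have h7 := Gen.node a b c _ _ hn (ihu z1 b h4 g1) (ihv z2 c h6 g3)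
      simpa [Gg] using h7

/-- Encoding. -/
theorem encode {a : G.N} {w : List Y} (h : Gen G a w) : ∃ z, Run (zs G) (some a) z none ∧
    E (hh G z) ∧ z.flatMap (Gg G) = w := by
  induction h with
  | leaf a o ho =>
    refine ⟨[.inr (a, o)], ⟨none, zs.leaf a o ho, rfl⟩, .nil, ?_⟩
    simp [Gg]
  | node a b c u v hn _ _ ih1 ih2 =>
    obtain ⟨z1, h1, h2, h3⟩ := ih1
    obtain ⟨z2, h4, h5, h6⟩ := ih2
    refine ⟨.inl (true, a, b, c) :: (z1 ++ .inl (false, a, b, c) :: z2), ?_, ?_, ?_⟩
    · exact ⟨some b, zs.op a b c hn, (Run_append _ _ _ _).mpr ⟨none, h1, some c,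
        zs.cl a b c hn, h4⟩⟩
    · obtain ⟨n, hn⟩ : ∃ n, 2 ^ G.rank a = n + 1 :=
        ⟨2 ^ G.rank a - 1, by have := Nat.one_le_two_pow (n := G.rank a); omega⟩
      have h7 := E.node (flag G a b c) n (code G (a, b, c)) _ _ h2 h5
      rw [← hn] at h7
      simpa [hh, Hh, nd] using h7
    · simp [Gg, h3, h6]

theorem zs_regular [Finite Y] (a : G.N) :
    Language.IsRegular ({z | Run (zs G) (some a) z none} : Language (ZA G)) := by
  have := G.fin
  have : Fintype (Option G.N) := Fintype.ofFinite _
  let M : NFA (ZA G) (Option G.N) :=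
    { step := fun p x => {q | zs G p x q}
      start := {some a}
      accept := {none} }
  have h : M.accepts = ({z | Run (zs G) (some a) z none} : Language (ZA G)) := by
    ext z
    constructor
    · rintro ⟨q, hq, h⟩
      obtain ⟨p, hp, h⟩ := (Run_nfa M z _ q).mp h
      have hq' : q = none := hq
      have hp' : p = some a := hp
      subst hq' hp'
      exact h
    · intro h
      exact ⟨none, rfl, (Run_nfa M z _ none).mpr ⟨some a, rfl, h⟩⟩
  rw [← h, ← NFA.toDFA_correct]
  classical
  exact ⟨_, inferInstance, _, rfl⟩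

/-- Languages of ranked grammars are in the cone. -/
theorem NG.inCone [Finite Y] (G : NG Y) : InCone L G.lang := by
  have := G.fin
  refine ⟨ZA G, Fintype.ofFinite _, Hh G, Gg G, _, zs_regular G G.start, ?_⟩
  ext w
  constructor
  · intro hw
    obtain ⟨z, h1, h2, h3⟩ := encode G hw
    exact ⟨z, h1, Or.inl h2, h3⟩
  · rintro ⟨z, h1, h2, rfl⟩
    rcases h2 with h2 | h2
    · exact decode G h2 z G.start rfl h1
    · exact absurd h2 (no_V G h1)

end enc

end Pool.Agent.R575.QR
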