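import Pool.Agent.Helper288.ConeTr
import Pool.Agent.R575.QR.Up

set_option autoImplicit false
set_option linter.unusedVariables false

namespace Pool.Agent.R575.QR

open Pool.Agent.Helper178.Idx (Ch Ch_add Ch_short Run Run_append Run_short Run_block
  Run_block_long Run_pair_short Run_rep)
open Pool.Agent.Helper288.Cone (Tr)

/-! ### the filter -/

/-- States of the filter. -/
abbrev FS (n : ℕ) := (Fin (n + 1) × Fin (n + 1)) ⊕ Fin (n + 1)

/-- Steps of the filter. -/
def fst (n : ℕ) : FS n → Lt → FS n → Prop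
  | .inr m, .op _, .inl s => (s.1 : ℕ) = m + 1 ∧ (s.2 : ℕ) = 0
  | .inl s, .c, .inl t => t.1 = s.1 ∧ (t.2 : ℕ) = s.2 + 1
  | .inl s, .d, .inr m => s.1 = s.2 ∧ m = s.1
  | .inr m, .d, .inr m' => m' = m
  | .inr m, .cl _, .inr m' => (m : ℕ) = n ∧ (m' : ℕ) = 0
  | .inr m, .g, .inr m' => m' = m
  | .inr m, .e, .inr m' => (m' : ℕ) = m + 1
  | _, _, _ => False

theorem card_FS (n : ℕ) : Fintype.card (FS n) = (n + 1) * (n + 2) := by
  simp only [FS, Fintype.card_sum, Fintype.card_prod, Fintype.card_fin]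
  ring

/-- The run over a block of `c`. -/
theorem f_c {n : ℕ} : ∀ (l : ℕ) (s : Fin (n + 1) × Fin (n + 1)) (q : FS n),
    Run (fst n) (.inl s) (rp l Lt.c) q ↔
      ∃ t : Fin (n + 1) × Fin (n + 1), q = .inl t ∧ t.1 = s.1 ∧ (t.2 : ℕ) = s.2 + l := by
  intro l
  induction l with
  | zero =>
    intro s q
    constructor
    · intro h
      have h' : (.inl s : FS n) = q := h
      exact ⟨s, h'.symm, rfl, by simp⟩
    · rintro ⟨t, rfl, h1, h2⟩
      have : t = s := Prod.ext h1 (Fin.ext (by simpa using h2))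
      rw [this]
      rfl
  | succ l ih =>
    intro s q
    rw [rp, List.replicate_succ]
    constructor
    · rintro ⟨r, h1, h2⟩
      cases r with
      | inr m => exact absurd h1 (by simp [fst])
      | inl r =>
        obtain ⟨t, rfl, h3, h4⟩ := (ih r q).mp h2
        obtain ⟨h5, h6⟩ : r.1 = s.1 ∧ (r.2 : ℕ) = s.2 + 1 := h1
        exact ⟨t, rfl, h3.trans h5, by omega⟩
    · rintro ⟨t, rfl, h1, h2⟩
      have hlt : (s.2 : ℕ) + 1 < n + 1 := by
        have := t.2.isLt
        omega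
      refine ⟨.inl (s.1, ⟨s.2 + 1, hlt⟩), ⟨rfl, rfl⟩, (ih _ _).mpr ⟨t, rfl, h1, ?_⟩⟩
      show (t.2 : ℕ) = (s.2 + 1) + l
      omega

theorem f_d {n : ℕ} (k : ℕ) : ∀ (m : Fin (n + 1)) (q : FS n),
    Run (fst n) (.inr m) (rp k Lt.d) q ↔ q = .inr m := by
  induction k with
  | zero => intro m q; exact eq_comm
  | succ k ih =>
    intro m q
    rw [rp, List.replicate_succ]
    constructor
    · rintro ⟨r, h1, h2⟩
      cases r with
      | inl s => exact absurd h1 (by simp [fst])
      | inr m' =>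
        have h1' : m' = m := h1
        subst h1'
        exact (ih _ q).mp h2
    · rintro rfl
      exact ⟨.inr m, rfl, (ih m _).mpr rfl⟩

theorem f_g {n : ℕ} (k : ℕ) : ∀ (m : Fin (n + 1)) (q : FS n),
    Run (fst n) (.inr m) (rp k Lt.g) q ↔ q = .inr m := by
  induction k with
  | zero => intro m q; exact eq_comm
  | succ k ih =>
    intro m q
    rw [rp, List.replicate_succ]
    constructor
    · rintro ⟨r, h1, h2⟩
      cases r with
      | inl s => exact absurd h1 (by simp [fst])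
      | inr m' =>
        have h1' : m' = m := h1
        subst h1'
        exact (ih _ q).mp h2
    · rintro rfl
      exact ⟨.inr m, rfl, (ih m _).mpr rfl⟩

theorem f_e {n : ℕ} (l : ℕ) : ∀ (m : Fin (n + 1)) (q : FS n),
    Run (fst n) (.inr m) (rp l Lt.e) q ↔ ∃ m' : Fin (n + 1), q = .inr m' ∧ (m' : ℕ) = m + l := by
  induction l with
  | zero =>
    intro m q
    constructor
    · intro h
      have h' : (.inr m : FS n) = q := h
      exact ⟨m, h'.symm, by simp⟩
    · rintro ⟨t, rfl, h1⟩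
      have : t = m := Fin.ext (by simpa using h1)
      rw [this]
      rfl
  | succ l ih =>
    intro m q
    rw [rp, List.replicate_succ]
    constructor
    · rintro ⟨r, h1, h2⟩
      cases r with
      | inl s => exact absurd h1 (by simp [fst])
      | inr r =>
        obtain ⟨t, rfl, h3⟩ := (ih r q).mp h2
        have h5 : (r : ℕ) = m + 1 := h1
        exact ⟨t, rfl, by omega⟩
    · rintro ⟨t, rfl, h1⟩
      have hlt : (m : ℕ) + 1 < n + 1 := by
        have := t.isLt
        omega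
      refine ⟨.inr ⟨m + 1, hlt⟩, rfl, (ih _ _).mpr ⟨t, rfl, ?_⟩⟩
      show (t : ℕ) = (m + 1) + l
      omega

/-- Words of the language that pass the filter are long. -/
theorem long_of_filter {n : ℕ} {w : List Lt} (hw : E w) : ∀ m q : Fin (n + 1), (q : ℕ) = n →
    Run (fst n) (.inr m) w (.inr q) → 2 ^ (n - m) ≤ w.length + 1 := by
  induction hw with
  | nil =>
    intro m q hq hr
    have hr' : (.inr m : FS n) = .inr q := hr
    have : m = q := Sum.inr.inj hr'
    subst this
    simp [hq]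
  | node f l k u v hu hv ihu ihv =>
    intro m q hq hr
    obtain ⟨s1, g1, hr⟩ := hr
    obtain ⟨s2, g2, hr⟩ := (Run_append _ _ _ _).mp hr
    obtain ⟨s3, g3, hr⟩ := (Run_append _ _ _ _).mp hr
    obtain ⟨s4, g4, hr⟩ := (Run_append _ _ _ _).mp hr
    obtain ⟨s5, g5, hr⟩ := hr
    obtain ⟨s6, g6, hr⟩ := (Run_append _ _ _ _).mp hr
    obtain ⟨s7, g7, g8⟩ := (Run_append _ _ _ _).mp hr
    -- first letter
    cases s1 with
    | inr m' => exact absurd g1 (by simp [fst])
    | inl t1 =>
      obtain ⟨a1, a2⟩ : (t1.1 : ℕ) = m + 1 ∧ (t1.2 : ℕ) = 0 := g1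
      obtain ⟨t2, rfl, a3, a4⟩ := (f_c _ _ _).mp g2
      rw [rp, List.replicate_succ] at g3
      obtain ⟨s3', b1, b2⟩ := g3
      cases s3' with
      | inl t => exact absurd b1 (by simp [fst])
      | inr m3 =>
        obtain ⟨b3, b4⟩ : t2.1 = t2.2 ∧ m3 = t2.1 := b1
        have b5 := (f_d k m3 s3).mp b2
        subst b5
        have hm3 : (m3 : ℕ) = m + 1 := by rw [b4, a3, a1]
        have hl : l + 1 = m + 1 := by
          have h1 : (t2.2 : ℕ) = t1.2 + (l + 1) := a4
          have h2 : (t2.2 : ℕ) = t2.1 := by rw [b3]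
          have h3 : (t2.1 : ℕ) = t1.1 := by rw [a3]
          omega
        -- the closing letter
        have hs4 : s5 = .inr 0 ∧ ∃ m4 : Fin (n + 1), s4 = .inr m4 ∧ (m4 : ℕ) = n := by
          cases s4 with
          | inl t => exact absurd g5 (by simp [fst])
          | inr m4 =>
            cases s5 with
            | inl t => exact absurd g5 (by simp [fst])
            | inr m5 =>
              obtain ⟨c1, c2⟩ : (m4 : ℕ) = n ∧ (m5 : ℕ) = 0 := g5
              refine ⟨?_, m4, rfl, c1⟩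
              congr 1
              exact Fin.ext (by simpa using c2)
        obtain ⟨rfl, m4, rfl, hm4⟩ := hs4
        have h6 := (f_g _ _ _).mp g6
        subst h6
        obtain ⟨m7, rfl, hm7⟩ := (f_e _ _ _).mp g7
        have hm7' : (m7 : ℕ) = m + 1 := by
          simp only [Fin.val_zero] at hm7
          omega
        have i1 := ihu m3 m4 hm4 g4
        have i2 := ihv m7 q hq g8
        rw [hm3] at i1
        rw [hm7'] at i2
        have hmn : (m : ℕ) + 1 ≤ n := by
          have := m7.isLt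
          omega
        have hpow : 2 ^ (n - m) = 2 * 2 ^ (n - (m + 1)) := by
          rw [← pow_succ']
          congr 1
          omega
        rw [hpow]
        simp only [rp, List.length_append, List.length_replicate, List.length_cons]
        omega

/-- There are words of the language that pass the filter. -/
theorem exists_filter {n : ℕ} : ∀ (j : ℕ) (m q : Fin (n + 1)), (q : ℕ) = n → n - m = j →
    ∃ w, E w ∧ Run (fst n) (.inr m) w (.inr q) := by
  intro j
  induction j with
  | zero =>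
    intro m q hq hm
    have h1 : m = q := Fin.ext (by have := m.isLt; omega)
    exact ⟨[], .nil, by rw [h1]; rfl⟩
  | succ j ih =>
    intro m q hq hm
    have hlt : (m : ℕ) + 1 < n + 1 := by omega
    obtain ⟨w, hw, hr⟩ := ih ⟨m + 1, hlt⟩ q hq (by show n - (m + 1) = j; omega)
    refine ⟨nd false (m + 1) (0 + 1) w w, .node _ _ _ _ _ hw hw, ?_⟩
    refine ⟨.inl (⟨m + 1, hlt⟩, 0), ⟨rfl, rfl⟩, (Run_append _ _ _ _).mpr
      ⟨.inl (⟨m + 1, hlt⟩, ⟨m + 1, hlt⟩), (f_c _ _ _).mpr ⟨_, rfl, rfl, by simp⟩,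
      (Run_append _ _ _ _).mpr ⟨.inr ⟨m + 1, hlt⟩, ?_, (Run_append _ _ _ _).mpr ⟨.inr q, hr,
      .inr 0, ⟨hq, rfl⟩, (Run_append _ _ _ _).mpr ⟨.inr 0, (f_g _ _ _).mpr rfl,
      (Run_append _ _ _ _).mpr ⟨.inr ⟨m + 1, hlt⟩, (f_e _ _ _).mpr ⟨_, rfl, by simp⟩, hr⟩⟩⟩⟩⟩⟩
    exact ⟨.inr ⟨m + 1, hlt⟩, ⟨rfl, rfl⟩, rfl⟩

/-- The filter as a transducer. -/
def FT (n : ℕ) : Tr Lt Lt where
  σ := FS n
  fin := inferInstance
  step := fun p x y q => ∃ a, x = some a ∧ y = some a ∧ fst n p a q
  start := fun p => p = .inr 0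
  acc := fun p => p = .inr (Fin.last n)

theorem FT_run {n : ℕ} (w : List Lt) : ∀ (p q : FS n), Run (fst n) p w q →
    (FT n).Run p w w q := by
  induction w with
  | nil =>
    intro p q h
    have h' : p = q := h
    subst h'
    exact Tr.Run.nil (T := FT n) p
  | cons a w ih =>
    rintro p q ⟨r, h1, h2⟩
    exact Tr.Run.cons (T := FT n) (x := some a) (y := some a) ⟨a, rfl, rfl, h1⟩ (ih r q h2)

theorem run_FT {n : ℕ} {p q : (FT n).σ} {u v : List Lt} (h : (FT n).Run p u v q) :
    u = v ∧ Run (fst n) p v q := by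
  induction h with
  | nil p => exact ⟨rfl, rfl⟩
  | cons hs _ ih =>
    obtain ⟨a, rfl, rfl, h1⟩ := hs
    obtain ⟨rfl, h2⟩ := ih
    exact ⟨rfl, _, h1, h2⟩

/-! ### runs of a transducer as runs of an automaton -/

variable {X Y : Type}

/-- The steps with one input letter. -/
def ost (T : Tr X Y) (p : T.σ) (a : X) (q : T.σ) : Prop := ∃ v, T.Run p [a] v q

theorem ost_of_run {T : Tr X Y} {p q : T.σ} {u : List X} {v : List Y} (h : T.Run p u v q) :
    (u ≠ [] → Run (ost T) p u q) := by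
  induction h with
  | nil p => intro h; exact absurd rfl h
  | @cons p q r x y u v hs hr ih =>
    intro hne
    cases x with
    | none =>
      cases u with
      | nil => exact absurd rfl hne
      | cons a u =>
        obtain ⟨s, ⟨v1, h1⟩, h2⟩ := ih (by simp)
        exact ⟨s, ⟨_, Tr.Run.cons hs h1⟩, h2⟩
    | some a =>
      cases u with
      | nil =>
        refine ⟨r, ⟨_, Tr.Run.cons hs hr⟩, rfl⟩
      | cons b u =>
        exact ⟨q, ⟨_, Tr.Run.cons hs (Tr.Run.nil q)⟩, ih (by simp)⟩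

/-- The silent steps. -/
def est (T : Tr X Y) (p : T.σ) (y : Option Y) (q : T.σ) : Prop := T.step p none y q

theorem run_of_est {T : Tr X Y} (z : List (Option Y)) : ∀ (p q : T.σ), Run (est T) p z q →
    T.Run p [] z.reduceOption q := by
  induction z with
  | nil =>
    intro p q h
    have h' : p = q := h
    subst h'
    exact Tr.Run.nil _
  | cons y z ih =>
    rintro p q ⟨r, h1, h2⟩
    have h3 := Tr.Run.cons (T := T) (x := none) (y := y) h1 (ih r q h2)
    cases y <;> simpa using h3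

theorem est_of_run {T : Tr X Y} {p q : T.σ} {u : List X} {v : List Y} (h : T.Run p u v q) :
    u = [] → ∃ z : List (Option Y), Run (est T) p z q := by
  induction h with
  | nil p => intro _; exact ⟨[], rfl⟩
  | @cons p q r x y u v hs hr ih =>
    intro hu
    cases x with
    | some a => simp at hu
    | none =>
      obtain ⟨z, hz⟩ := ih (by simpa using hu)
      exact ⟨y :: z, q, hs, hz⟩

/-- Short outputs for the empty input. -/
theorem short_nil {T : Tr X Y} {p q : T.σ} {v : List Y} (h : T.Run p [] v q) :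
    ∃ v', T.Run p [] v' q ∧ v'.length ≤ @Fintype.card T.σ T.fin := by
  have := T.fin
  obtain ⟨z, hz⟩ := est_of_run h rfl
  obtain ⟨z', h1, h2⟩ := Run_short hz
  refine ⟨_, run_of_est z' p q h2, ?_⟩
  have h3 : z'.reduceOption.length ≤ z'.length := List.reduceOption_length_le z'
  have h4 : z'.length < @Fintype.card T.σ T.fin := by convert h1
  omega

/-- A run reading at least one letter. -/
theorem split_run {T : Tr X Y} {p q : T.σ} {u0 : List X} {v : List Y} (h : T.Run p u0 v q) :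
    ∀ a u, u0 = a :: u → ∃ r s y v1 v2, T.Run p [] v1 r ∧ T.step r (some a) y s ∧
      T.Run s u v2 q := by
  induction h with
  | nil p => intro a u h; simp at h
  | @cons p q r x y u v hs hr ih =>
    intro a u' hu
    cases x with
    | none =>
      obtain ⟨r', s, y', v1, v2, h1, h2, h3⟩ := ih a u' (by simpa using hu)
      exact ⟨r', s, y', _, v2, Tr.Run.cons hs h1, h2, h3⟩
    | some b =>
      have hu' : b :: u = a :: u' := by simpa using hu
      obtain ⟨rfl, rfl⟩ := List.cons.inj hu'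
      exact ⟨p, q, y, [], v, Tr.Run.nil _, hs, hr⟩

/-- Short outputs. -/
theorem short_run {T : Tr X Y} (u : List X) : ∀ {p q : T.σ} {v : List Y}, T.Run p u v q →
    ∃ v', T.Run p u v' q ∧ v'.length ≤ (u.length + 1) * (@Fintype.card T.σ T.fin + 1) := by
  induction u with
  | nil =>
    intro p q v h
    obtain ⟨v', h1, h2⟩ := short_nil h
    exact ⟨v', h1, by simp; omega⟩
  | cons a u ih =>
    intro p q v h
    obtain ⟨r, s, y, v1, v2, h1, h2, h3⟩ := split_run h a u rfl
    obtain ⟨v1', h4, h5⟩ := short_nil h1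
    obtain ⟨v2', h6, h7⟩ := ih h3
    refine ⟨v1' ++ (y.toList ++ v2'), ?_, ?_⟩
    · have := h4.trans (Tr.Run.cons h2 h6)
      simpa using this
    · have h8 : y.toList.length ≤ 1 := by cases y <;> simp
      simp only [List.length_append, List.length_cons]
      calc _ ≤ (@Fintype.card T.σ T.fin + 1) + (u.length + 1) * (@Fintype.card T.σ T.fin + 1) := by
            omega
        _ = _ := by ring

theorem run_of_ost {T : Tr X Y} (u : List X) : ∀ {p q : T.σ}, Run (ost T) p u q →
    ∃ v, T.Run p u v q := by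
  induction u with
  | nil =>
    intro p q h
    have h' : p = q := h
    subst h'
    exact ⟨[], Tr.Run.nil _⟩
  | cons a u ih =>
    rintro p q ⟨r, ⟨v1, h1⟩, h2⟩
    obtain ⟨v2, h3⟩ := ih h2
    exact ⟨v1 ++ v2, by simpa using h1.trans h3⟩

/-- The upper bound for transducers: if some word of the language is mapped to something, then some
word of the language is mapped to something short. -/
theorem upper_tr (T : Tr Lt Y) {u : List Lt} (hu : u ∈ L) {v : List Y} (h : T.rel u v) :
    ∃ u' ∈ L, ∃ v', T.rel u' v' ∧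
      v'.length ≤ (UB (@Fintype.card T.σ T.fin) + 1) * (@Fintype.card T.σ T.fin + 1) := by
  have := T.fin
  obtain ⟨p, q, hp, hq, hr⟩ := h
  by_cases hne : u = []
  · subst hne
    obtain ⟨v', h1, h2⟩ := short_run [] hr
    refine ⟨[], hu, v', ⟨p, q, hp, hq, h1⟩, h2.trans ?_⟩
    apply Nat.mul_le_mul_right
    simp
  · have h1 := ost_of_run hr hne
    obtain ⟨u', hu', p', q', hp', hq', h2, h3⟩ := upper (S := T.start) (A := T.acc) hu hp hq h1
    obtain ⟨v1, h4⟩ := run_of_ost u' h2
    obtain ⟨v', h5, h6⟩ := short_run u' h4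
    refine ⟨u', hu', v', ⟨p', q', hp', hq', h5⟩, h6.trans ?_⟩
    apply Nat.mul_le_mul_right
    have h7 : u'.length ≤ UB (@Fintype.card T.σ T.fin) := by convert h3
    omega

/-! ### growth -/

theorem poly_lt_two_pow (b : ℕ) : ∃ j : ℕ, (4 * (2 * j + b) + 3) * (2 * j + b + 2) + 4 +
    (2 * j + b) + 4 < 2 ^ j := by
  have h1 : Filter.Tendsto (fun n : ℕ => (n : ℝ) ^ 2 / 2 ^ n) Filter.atTop (nhds 0) := by
    have := tendsto_pow_const_div_const_pow_of_one_lt 2 (r := (2 : ℝ)) (by norm_num)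
    exact this
  have h2 : ∀ᶠ n : ℕ in Filter.atTop, (n : ℝ) ^ 2 / 2 ^ n < 1 / (100 * (b + 2) ^ 2) := by
    have hpos : (0 : ℝ) < 1 / (100 * (b + 2) ^ 2) := by positivity
    exact (tendsto_order.mp h1).2 _ hpos
  obtain ⟨j, hj, hj1⟩ := (h2.and (Filter.eventually_ge_atTop 1)).exists
  refine ⟨j, ?_⟩
  have h3 : (j : ℝ) ^ 2 * (100 * (b + 2) ^ 2) < 2 ^ j := by
    rw [div_lt_div_iff₀ (by positivity) (by positivity)] at hj
    linarith
  have h4 : j ^ 2 * (100 * (b + 2) ^ 2) < 2 ^ j := by exact_mod_cast h3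
  refine lt_of_le_of_lt ?_ h4
  have e1 : 2 * j + b ≤ j * (b + 2) := by nlinarith
  have e2 : 2 ≤ j * (b + 2) := by nlinarith
  set t := j * (b + 2) with ht
  have e3 : j ^ 2 * (100 * (b + 2) ^ 2) = 100 * t ^ 2 := by rw [ht]; ring
  rw [e3]
  have e4 : (4 * (2 * j + b) + 3) * (2 * j + b + 2) ≤ (4 * t + 3) * (t + 2) := by gcongr
  nlinarith

/-- The language of all trees is not in the cone. -/
theorem not_inCone (T : Tr Lt Lt) (hT : ∀ v, E v ↔ ∃ u ∈ L, T.rel u v) : False := by
  have := T.fin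
  set C := @Fintype.card T.σ T.fin with hC
  -- choice of the parameters
  obtain ⟨j, hj⟩ := poly_lt_two_pow (C + 4)
  set n := 2 ^ j with hn
  obtain ⟨w, hw, hr⟩ := exists_filter (n := n) (n - (0 : Fin (n + 1))) 0 (Fin.last n) (by simp) rfl
  obtain ⟨u, hu, hrel⟩ := (hT w).mp hw
  have hP : (T.comp (FT n)).rel u w :=
    (Tr.comp_rel T (FT n) u w).mpr ⟨w, hrel, .inr 0, .inr (Fin.last n), rfl, rfl,
      FT_run w _ _ hr⟩
  obtain ⟨u', hu', v', hrel', hlen⟩ := upper_tr (T.comp (FT n)) hu hP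
  obtain ⟨v'', h1, p, q, hp, hq, h2⟩ := (Tr.comp_rel T (FT n) u' v').mp hrel'
  obtain ⟨rfl, h3⟩ := run_FT h2
  have hv : E v'' := (hT v'').mpr ⟨u', hu', h1⟩
  have hp' : p = .inr 0 := hp
  have hq' : q = .inr (Fin.last n) := hq
  subst hp' hq'
  have hlong := long_of_filter hv 0 (Fin.last n) (by simp) h3
  simp only [Fin.val_zero, Nat.sub_zero] at hlong
  -- the number of states
  have hcard : @Fintype.card (T.comp (FT n)).σ (T.comp (FT n)).fin = C * ((n + 1) * (n + 2)) := by
    rw [hC, ← card_FS]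
    have : @Fintype.card (T.comp (FT n)).σ (T.comp (FT n)).fin =
        @Fintype.card (T.σ × (FT n).σ) (@instFintypeProd _ _ T.fin (FT n).fin) := by
      congr 1
    rw [this]
    exact @Fintype.card_prod _ _ T.fin (FT n).fin
  rw [hcard] at hlen
  have hC1 : 1 ≤ C := by
    obtain ⟨p0, -, -⟩ := h1
    exact (@Fintype.card_pos_iff _ T.fin).mpr ⟨p0⟩
  set N := C * ((n + 1) * (n + 2)) with hN
  have hN1 : 1 ≤ N := Nat.mul_pos hC1 (by positivity)
  have hn1 : 1 ≤ n := Nat.one_le_two_pow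
  have hNa : N ≤ 2 ^ (2 * j + (C + 4)) := by
    have e1 : C ≤ 2 ^ C := Nat.lt_two_pow_self.le
    have e2 : (n + 1) * (n + 2) ≤ 2 ^ (2 * j + 3) := by
      have : 2 ^ (2 * j + 3) = 8 * (n * n) := by
        rw [hn, ← pow_add, show (8 : ℕ) = 2 ^ 3 by norm_num, ← pow_add]
        congr 1
        ring
      rw [this]
      nlinarith
    calc N ≤ 2 ^ C * 2 ^ (2 * j + 3) := Nat.mul_le_mul e1 e2
      _ = 2 ^ (C + (2 * j + 3)) := (pow_add _ _ _).symm
      _ ≤ _ := Nat.pow_le_pow_right (by norm_num) (by omega)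
  set a := 2 * j + (C + 4) with ha
  have hUB := UB_le hN1 hNa
  have e1 : UB N + 1 ≤ 2 ^ ((4 * a + 3) * (a + 2) + 4 + 1) := by
    rw [pow_succ _ ((4 * a + 3) * (a + 2) + 4)]
    have : 1 ≤ 2 ^ ((4 * a + 3) * (a + 2) + 4) := Nat.one_le_two_pow
    omega
  have e2 : N + 1 ≤ 2 ^ (a + 1) := by
    rw [pow_succ]
    have : 1 ≤ 2 ^ a := Nat.one_le_two_pow
    omega
  have e3 : v''.length ≤ 2 ^ ((4 * a + 3) * (a + 2) + 4 + a + 2) := by
    refine hlen.trans ((Nat.mul_le_mul e1 e2).trans (le_of_eq ?_))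
    rw [← pow_add]
    congr 1
    ring
  have e4 : 2 ^ n ≤ 2 ^ ((4 * a + 3) * (a + 2) + 4 + a + 3) := by
    refine hlong.trans ?_
    rw [pow_succ _ ((4 * a + 3) * (a + 2) + 4 + a + 2)]
    have : 1 ≤ 2 ^ ((4 * a + 3) * (a + 2) + 4 + a + 2) := Nat.one_le_two_pow
    omega
  have e5 := (Nat.pow_le_pow_iff_right (by norm_num : 1 < 2)).mp e4
  rw [hn] at e5
  omega

end Pool.Agent.R575.QR
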